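import Pool.Agent.V8H79.BM.Defs

/-!
# Hypersurfaces: the Gauss–Manin connection and the Hasse–Witt matrix

A form with a pole of order `s` along the hypersurface `f = 0` is given by a polynomial `P`, it is
`P Ω / f ^ s`, `Ω = ∑ ± w_i x_i dx_0 ... (no dx_i) ... dx_N`.
-/

set_option autoImplicit false

open MvPolynomial

namespace Pool.Agent.V8H79.HY

open Pool.Agent.V8H79.BM

/-- the map `d` applied to the coefficients of a polynomial -/
noncomputable def dco {R σ : Type*} [CommRing R] (d : R → R) (P : MvPolynomial σ R) :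
    MvPolynomial σ R :=
  ∑ u ∈ P.support, monomial u (d (coeff u P))

/-- `f ^ (s + 1) ∑ ∂_l (Q_l / f ^ s)`, the numerator of an exact form with a pole of order `s + 1` -/
noncomputable def ext {R σ : Type*} [CommRing R] [Fintype σ] (s : ℕ) (f : MvPolynomial σ R)
    (Q : σ → MvPolynomial σ R) : MvPolynomial σ R :=
  ∑ l, (f * pderiv l (Q l) - (s : MvPolynomial σ R) * Q l * pderiv l f)

/-- the Hasse–Witt matrix: the entry `a, b` is the coefficient of `x ^ (p v_a - v_b)` in `f ^ (p - 1)` -/
noncomputable def hwm {R σ : Type*} [CommRing R] (p : ℕ) {r : ℕ} (v : Fin r → σ →₀ ℕ)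
    (f : MvPolynomial σ R) : Matrix (Fin r) (Fin r) R :=
  Matrix.of fun a b => coeff (p • v a) (monomial (v b) 1 * f ^ (p - 1))

/-- the matrix `M` of the Gauss–Manin connection: `∇ (e_i / f ^ S) = ∑ M i j e_j / f ^ S` modulo
exact forms -/
def IsGM {K σ : Type*} [CommRing K] [Fintype σ] (δ : K → K) (S : ℕ) (f : MvPolynomial σ K) {n : ℕ}
    (e : Fin n → MvPolynomial σ K) (M : Matrix (Fin n) (Fin n) K) : Prop :=
  ∀ i, ∃ Q : σ → MvPolynomial σ K,
    f * dco δ (e i) - (S : MvPolynomial σ K) * e i * dco δ f =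
      f * ∑ j, C (M i j) * e j + ext S f Q

/-- `P Ω / f ^ s` is a form on the complement of the hypersurface, in the eigenspace `χ`: the weight of
`P Ω` is `s γ + χ`. -/
def IsForm {R σ Γ : Type*} [CommRing R] [Fintype σ] [AddCommGroup Γ] (w : σ → Γ) (γ χ : Γ) (s : ℕ)
    (P : MvPolynomial σ R) : Prop :=
  IsWeightedHomogeneous w P (s • γ + χ - ∑ l, w l)

/-- the Jacobian ideal -/
noncomputable def jac {R σ : Type*} [CommRing R] (f : MvPolynomial σ R) : Ideal (MvPolynomial σ R) :=
  Ideal.span (Set.range fun l => pderiv l f)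

/-- the Zariski closure of the set `G` of matrices contains a symplectic group, a special orthogonal
group (and `n ≠ 2 r`), or the special linear group -/
def BigSet {C : Type} [Field C] {n : ℕ} (G : Set (Matrix (Fin n) (Fin n) C)) (r : ℕ) : Prop :=
  (∃ J : Matrix (Fin n) (Fin n) C, J.transpose = -J ∧ J.det ≠ 0 ∧
      ZContains G {h | h * J * h.transpose = J}) ∨
    (n ≠ 2 * r ∧ ∃ J : Matrix (Fin n) (Fin n) C, J.transpose = J ∧ J.det ≠ 0 ∧
      ZContains G {h | h * J * h.transpose = J ∧ h.det = 1}) ∨
    ZContains G {h | h.det = 1}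

/-- `Φ` is a fundamental matrix of flat vectors over the differential extension field `E` of `k` -/
def Fund {k : Type} [Field k] (δ : Derivation ℤ k k) {n : ℕ} (M : Matrix (Fin n) (Fin n) k)
    {E : Type} [Field E] [Algebra k E] (δE : Derivation ℤ E E) (Φ : Matrix (Fin n) (Fin n) E) :
    Prop :=
  (∀ a : k, δE (algebraMap k E a) = algebraMap k E (δ a)) ∧ Φ.det ≠ 0 ∧
    ∀ i, nab δE (M.map (algebraMap k E)) (Φ i) = 0

/-- big differential Galois group: for a fundamental matrix `Φ` of flat vectors over a differential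
extension field `E` the Zariski closure of the group of the matrices of the automorphisms of `E / k`
contains a symplectic group, a special orthogonal group (and `n ≠ 2 r`) or the special linear group -/
def Big3 {k : Type} [Field k] (δ : Derivation ℤ k k) {n : ℕ} (M : Matrix (Fin n) (Fin n) k)
    (r : ℕ) : Prop :=
  ∃ (E : Type) (_ : Field E) (_ : Algebra k E) (δE : Derivation ℤ E E)
    (Φ : Matrix (Fin n) (Fin n) E), Fund δ M δE Φ ∧ BigSet (galMat k δE Φ) r

end Pool.Agent.V8H79.HY
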