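import Pool.Agent.V8H79.BM.PF

/-!
# Moving a subspace by reflections
-/

set_option autoImplicit false

open Matrix

namespace Pool.Agent.V8H79.HY

open Pool.Agent.V8H79.BM

section points

variable {F : Type} [Field F] [CharZero F] {n : ℕ}

/-- a nonzero polynomial does not vanish at some natural point -/
theorem nat_point (P : MvPolynomial (Fin n) F) (hP : P ≠ 0) :
    ∃ v : Fin n → ℕ, MvPolynomial.eval (fun i => (v i : F)) P ≠ 0 := by
  by_contra h
  push Not at h
  apply hP
  refine MvPolynomial.funext_set (fun _ : Fin n => Set.range (fun m : ℕ => (m : F)))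
    (fun _ => Set.infinite_range_of_injective Nat.cast_injective) ?_
  intro x hx
  rw [map_zero]
  have h1 : ∀ i, ∃ m : ℕ, (m : F) = x i := fun i => hx i (Set.mem_univ i)
  choose v hv using h1
  have h2 : x = fun i => (v i : F) := funext fun i => (hv i).symm
  rw [h2]
  exact h v

/-- the polynomial of a linear form -/
noncomputable def lp (φ : (Fin n → F) →ₗ[F] F) : MvPolynomial (Fin n) F :=
  ∑ i, MvPolynomial.C (φ (Pi.single i 1)) * MvPolynomial.X i

omit [CharZero F] in
theorem eval_lp (φ : (Fin n → F) →ₗ[F] F) (v : Fin n → F) : MvPolynomial.eval v (lp φ) = φ v := by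
  unfold lp
  rw [map_sum]
  have h1 : v = ∑ i, v i • (Pi.single i 1 : Fin n → F) := by
    funext j
    rw [Finset.sum_apply, Finset.sum_eq_single j]
    · simp
    · intro b _ hb
      simp [hb.symm]
    · simp
  conv_rhs => rw [h1, map_sum]
  refine Finset.sum_congr rfl fun i _ => ?_
  rw [map_smul, map_mul, MvPolynomial.eval_C, MvPolynomial.eval_X, smul_eq_mul, mul_comm]

/-- the polynomial of the quadratic form `v ↦ A v ⬝ J (A v)` -/
noncomputable def qp (J : Matrix (Fin n) (Fin n) F) (A : (Fin n → F) →ₗ[F] (Fin n → F)) :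
    MvPolynomial (Fin n) F :=
  ∑ i, ∑ j, MvPolynomial.C (J i j) * lp ((LinearMap.proj i).comp A) *
    lp ((LinearMap.proj j).comp A)

omit [CharZero F] in
theorem eval_qp (J : Matrix (Fin n) (Fin n) F) (A : (Fin n → F) →ₗ[F] (Fin n → F))
    (v : Fin n → F) : MvPolynomial.eval v (qp J A) = A v ⬝ᵥ (J *ᵥ A v) := by
  unfold qp
  simp only [map_sum, map_mul, MvPolynomial.eval_C, eval_lp, LinearMap.comp_apply,
    LinearMap.proj_apply, dotProduct, mulVec, Finset.mul_sum]
  refine Finset.sum_congr rfl fun i _ => Finset.sum_congr rfl fun j _ => ?_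
  ring

end points

section form

variable {F : Type} [Field F] [CharZero F] {n : ℕ} (J : Matrix (Fin n) (Fin n) F)

omit [CharZero F] in
theorem form_symm (hJ : Jᵀ = J) (x y : Fin n → F) : x ⬝ᵥ (J *ᵥ y) = y ⬝ᵥ (J *ᵥ x) := by
  rw [dotProduct_mulVec, ← mulVec_transpose, hJ, dotProduct_comm]

/-- totally isotropic subspaces have dimension at most `n / 2` -/
theorem isotropic_dim (hJ : Jᵀ = J) (hdet : J.det ≠ 0) (U : Submodule F (Fin n → F))
    (hU : ∀ x ∈ U, x ⬝ᵥ (J *ᵥ x) = 0) : 2 * Module.finrank F U ≤ n := by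
  classical
  have hpol : ∀ x ∈ U, ∀ y ∈ U, x ⬝ᵥ (J *ᵥ y) = 0 := by
    intro x hx y hy
    have h1 := hU (x + y) (U.add_mem hx hy)
    rw [mulVec_add, dotProduct_add, add_dotProduct, add_dotProduct, hU x hx, hU y hy,
      form_symm J hJ y x, zero_add, add_zero] at h1
    have h2 : (2 : F) * (x ⬝ᵥ (J *ᵥ y)) = 0 := by linear_combination h1
    exact (mul_eq_zero.1 h2).resolve_left two_ne_zero
  -- the map `U → Hom(V / U, F)`
  obtain ⟨W, hW⟩ := Submodule.exists_isCompl U
  let f : U →ₗ[F] Module.Dual F W :=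
    { toFun := fun x =>
        { toFun := fun y => (y : Fin n → F) ⬝ᵥ (J *ᵥ (x : Fin n → F))
          map_add' := fun a b => by rw [Submodule.coe_add, add_dotProduct]
          map_smul' := fun c a => by rw [Submodule.coe_smul, smul_dotProduct]; rfl }
      map_add' := fun a b => by
        ext y
        change (y : Fin n → F) ⬝ᵥ (J *ᵥ ((a + b : U) : Fin n → F)) = _
        rw [Submodule.coe_add, mulVec_add, dotProduct_add]
        rfl
      map_smul' := fun c a => by
        ext y
        change (y : Fin n → F) ⬝ᵥ (J *ᵥ ((c • a : U) : Fin n → F)) = _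
        rw [Submodule.coe_smul, mulVec_smul, dotProduct_smul]
        rfl }
  have hf : Function.Injective f := by
    rw [← LinearMap.ker_eq_bot, Submodule.eq_bot_iff]
    intro x hx
    rw [LinearMap.mem_ker] at hx
    have h1 : ∀ y ∈ W, y ⬝ᵥ (J *ᵥ (x : Fin n → F)) = 0 := fun y hy =>
      congrArg (fun g : Module.Dual F W => g ⟨y, hy⟩) hx
    have h2 : ∀ y, y ⬝ᵥ (J *ᵥ (x : Fin n → F)) = 0 := by
      intro y
      have hy : y ∈ U ⊔ W := by rw [hW.sup_eq_top]; trivial
      obtain ⟨a, ha, b, hb, rfl⟩ := Submodule.mem_sup.1 hy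
      rw [add_dotProduct, hpol a ha x x.2, h1 b hb, add_zero]
    have h3 : J *ᵥ (x : Fin n → F) = 0 := by
      funext i
      have := h2 (Pi.single i 1)
      simpa using this
    have h4 : (x : Fin n → F) = 0 := by
      have := congrArg (fun z => J⁻¹ *ᵥ z) h3
      simpa [mulVec_mulVec, nonsing_inv_mul _ (isUnit_iff_ne_zero.2 hdet)] using this
    exact Subtype.ext h4
  have h1 := LinearMap.finrank_le_finrank_of_injective hf
  rw [Subspace.dual_finrank_eq] at h1
  have h2 := Submodule.finrank_add_eq_of_isCompl hW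
  rw [Module.finrank_fin_fun] at h2
  omega

end form

section orth

variable {C F : Type} [Field C] [CharZero C] [Field F] [CharZero F] [Algebra C F] {n : ℕ}

omit [CharZero C] in
/-- the reflection in `v` -/
theorem refl_mem (J : Matrix (Fin n) (Fin n) C) (hJ : Jᵀ = J) (v : Fin n → C)
    (hq : v ⬝ᵥ (J *ᵥ v) ≠ 0) :
    (1 + vecMulVec ((-2 / (v ⬝ᵥ (J *ᵥ v))) • (J *ᵥ v)) v) * J *
      (1 + vecMulVec ((-2 / (v ⬝ᵥ (J *ᵥ v))) • (J *ᵥ v)) v)ᵀ = J ∧
    (1 + vecMulVec ((-2 / (v ⬝ᵥ (J *ᵥ v))) • (J *ᵥ v)) v).det = -1 := by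
  classical
  set q := v ⬝ᵥ (J *ᵥ v) with hqdef
  set u := J *ᵥ v with hu
  have hvJ : v ᵥ* J = u := by
    rw [← mulVec_transpose, hJ]
  refine ⟨?_, ?_⟩
  · rw [transpose_add, transpose_one, transpose_vecMulVec, add_mul, one_mul, vecMulVec_mul, hvJ,
      mul_add, mul_one, add_mul, mul_vecMulVec, vecMulVec_mul_vecMulVec, ← hu]
    have h1 : u ⬝ᵥ v = q := dotProduct_comm _ _
    rw [h1]
    ext i j
    simp only [Matrix.add_apply, vecMulVec_apply, Pi.smul_apply, smul_eq_mul]
    field_simp
    ring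
  · have h1 := det_one_add_replicateCol_mul_replicateRow (ι := Unit) ((-2 / q) • u) v
    rw [vecMulVec_eq Unit, h1, dotProduct_smul, smul_eq_mul, ← hqdef, div_mul_cancel₀ _ hq]
    norm_num

/-- the orthogonal group has many reflections -/
theorem trans_o (J : Matrix (Fin n) (Fin n) C) (hJ : Jᵀ = J) (hdet : J.det ≠ 0) :
    Trans F {h : Matrix (Fin n) (Fin n) C | h * J * hᵀ = J} := by
  classical
  refine ⟨?_, ?_, ?_, ?_⟩
  · change 1 * J * 1ᵀ = J
    simp
  · intro g hg h hh
    change g * J * gᵀ = J at hg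
    change h * J * hᵀ = J at hh
    change g * h * J * (g * h)ᵀ = J
    rw [transpose_mul]
    calc g * h * J * (hᵀ * gᵀ) = g * (h * J * hᵀ) * gᵀ := by simp only [Matrix.mul_assoc]
      _ = J := by rw [hh, hg]
  · intro g hg h0
    change g * J * gᵀ = J at hg
    have := congrArg Matrix.det hg
    rw [det_mul, det_mul, h0, zero_mul, zero_mul] at this
    exact hdet this.symm
  · intro W hW x _ hx0
    let JF := J.map (algebraMap C F)
    have hJFs : JFᵀ = JF := by
      change (J.map (algebraMap C F))ᵀ = J.map (algebraMap C F)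
      rw [← transpose_map, hJ]
    have hJF : JF.det ≠ 0 := by
      have : JF.det = algebraMap C F J.det := by
        rw [RingHom.map_det]
        rfl
      rw [this]
      exact (map_ne_zero _).2 hdet
    -- the three polynomials
    obtain ⟨ℓ, hℓ0, hℓW⟩ := Submodule.exists_le_ker_of_lt_top W (lt_top_iff_ne_top.2 hW)
    let β : (Fin n → F) →ₗ[F] F :=
      { toFun := fun y => y ⬝ᵥ (JF *ᵥ x)
        map_add' := fun a b => add_dotProduct _ _ _
        map_smul' := fun c a => smul_dotProduct _ _ _ }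
    have hJx : JF *ᵥ x ≠ 0 := by
      intro h
      apply hx0
      have := congrArg (fun z => JF⁻¹ *ᵥ z) h
      simpa [mulVec_mulVec, nonsing_inv_mul _ (isUnit_iff_ne_zero.2 hJF)] using this
    have hβ : β ≠ 0 := by
      intro h
      apply hJx
      funext i
      have h1 := congrArg (fun g : (Fin n → F) →ₗ[F] F => g (Pi.single i 1)) h
      change Pi.single i 1 ⬝ᵥ (JF *ᵥ x) = 0 at h1
      simpa using h1
    have hlp : ∀ g : (Fin n → F) →ₗ[F] F, g ≠ 0 → lp g ≠ 0 := by
      intro g hg h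
      apply hg
      ext1
      apply LinearMap.ext
      intro c
      rw [LinearMap.comp_apply, ← eval_lp, h, map_zero]
      rfl
    have hq0 : ∃ y : Fin n → F, y ⬝ᵥ (JF *ᵥ y) ≠ 0 := by
      by_contra hcon
      push Not at hcon
      have h1 := isotropic_dim JF hJFs hJF ⊤ (fun y _ => hcon y)
      rw [finrank_top, Module.finrank_fin_fun] at h1
      have h2 : n = 0 := by omega
      subst h2
      exact hx0 (Subsingleton.elim _ _)
    have hqp : qp JF LinearMap.id ≠ 0 := by
      intro h
      obtain ⟨y, hy⟩ := hq0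
      apply hy
      have h1 := eval_qp JF LinearMap.id y
      rw [h, map_zero] at h1
      exact h1.symm
    obtain ⟨v, hv⟩ := nat_point (lp ℓ * lp β * qp JF LinearMap.id)
      (mul_ne_zero (mul_ne_zero (hlp ℓ hℓ0) (hlp β hβ)) hqp)
    rw [map_mul, map_mul, eval_lp, eval_lp, eval_qp, LinearMap.id_apply] at hv
    have hv1 : ℓ (fun i => (v i : F)) ≠ 0 := fun h => hv (by rw [h]; ring)
    have hv2 : β (fun i => (v i : F)) ≠ 0 := fun h => hv (by rw [h]; ring)
    have hv3 : (fun i => (v i : F)) ⬝ᵥ (JF *ᵥ fun i => (v i : F)) ≠ 0 := fun h => hv (by rw [h]; ring)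
    let vC : Fin n → C := fun i => (v i : C)
    have hvF : (fun i => algebraMap C F (vC i)) = fun i => (v i : F) := by
      funext i
      simp [vC]
    have hwF : (fun i => algebraMap C F ((J *ᵥ vC) i)) = JF *ᵥ fun i => (v i : F) := by
      funext i
      rw [← hvF]
      simp [mulVec, dotProduct, JF, map_sum, map_mul]
    have hqF : algebraMap C F (vC ⬝ᵥ (J *ᵥ vC)) =
        (fun i => (v i : F)) ⬝ᵥ (JF *ᵥ fun i => (v i : F)) := by
      rw [← hwF, ← hvF]
      simp [dotProduct, map_sum, map_mul]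
    have hqC : vC ⬝ᵥ (J *ᵥ vC) ≠ 0 := by
      intro h
      rw [h, map_zero] at hqF
      exact hv3 hqF.symm
    set q := vC ⬝ᵥ (J *ᵥ vC) with hq
    refine ⟨1 + vecMulVec ((-2 / q) • (J *ᵥ vC)) vC, (refl_mem J hJ vC hqC).1, ?_⟩
    let φ : (Fin n → F) →ₗ[F] F :=
      { toFun := fun y => y ⬝ᵥ (fun i => algebraMap C F (((-2 / q) • (J *ᵥ vC)) i))
        map_add' := fun a b => add_dotProduct _ _ _
        map_smul' := fun c a => smul_dotProduct _ _ _ }
    refine ⟨φ, fun i => algebraMap C F (vC i), ?_, fun y => vecMul_transv _ vC y, ?_⟩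
    · rw [hvF]
      intro h
      exact hv1 (hℓW h)
    · change x ⬝ᵥ (fun i => algebraMap C F (((-2 / q) • (J *ᵥ vC)) i)) ≠ 0
      have h1 : (fun i => algebraMap C F (((-2 / q) • (J *ᵥ vC)) i)) =
          algebraMap C F (-2 / q) • (JF *ᵥ fun i => (v i : F)) := by
        rw [← hwF]
        funext i
        rw [Pi.smul_apply, Pi.smul_apply, smul_eq_mul, smul_eq_mul, map_mul]
      rw [h1, dotProduct_smul, smul_eq_mul, form_symm JF hJFs]
      refine mul_ne_zero ?_ hv2
      rw [Ne, map_eq_zero]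
      exact div_ne_zero (by norm_num) hqC

/-- the special orthogonal group moves subspaces to general position -/
theorem mov_so (J : Matrix (Fin n) (Fin n) C) (hJ : Jᵀ = J) (hdet : J.det ≠ 0) {r : ℕ} (hr : r ≤ n)
    (hrn : n ≠ 2 * r) :
    Mov F {h : Matrix (Fin n) (Fin n) C | h * J * hᵀ = J ∧ h.det = 1} r := by
  classical
  intro U1 U2 hU1 hU2
  obtain ⟨h, hh, hmove⟩ := mov_of_trans hr (trans_o (F := F) J hJ hdet) U1 U2 hU1 hU2
  change h * J * hᵀ = J at hh
  have hdet2 : h.det = 1 ∨ h.det = -1 := by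
    have h1 := congrArg Matrix.det hh
    rw [det_mul, det_mul, det_transpose] at h1
    have h2 : J.det * ((h.det - 1) * (h.det + 1)) = 0 := by linear_combination h1
    rcases mul_eq_zero.1 h2 with h3 | h3
    · exact absurd h3 hdet
    · rcases mul_eq_zero.1 h3 with h4 | h4
      · exact Or.inl (sub_eq_zero.1 h4)
      · exact Or.inr (eq_neg_of_add_eq_zero_left h4)
  rcases hdet2 with h1 | h1
  · exact ⟨h, ⟨hh, h1⟩, hmove⟩
  -- one more reflection
  let hF := h.map (algebraMap C F)
  have hFdet : IsUnit hF.det := by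
    have : hF.det = algebraMap C F h.det := by
      rw [RingHom.map_det]
      rfl
    rw [this, h1]
    simp
  let T : (Fin n → F) →ₗ[F] (Fin n → F) := Matrix.vecMulLinear hF
  have hTinj : Function.Injective T := by
    intro x y hxy
    have h2 := congrArg (fun z => z ᵥ* hF⁻¹) hxy
    simpa [T, Matrix.vecMul_vecMul, Matrix.mul_nonsing_inv _ hFdet] using h2
  let U := U1.map T
  have hUdim : Module.finrank F U = n - r := by
    rw [← LinearEquiv.finrank_eq (Submodule.equivMapOfInjective T hTinj U1), hU1]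
  have hdisj : Disjoint U2 U := by
    rw [Submodule.disjoint_def]
    rintro z hz ⟨y, hy, rfl⟩
    rw [hmove y hy hz, map_zero]
  obtain ⟨U2', hle, hcompl⟩ := hdisj.exists_isCompl
  have hU2'dim : Module.finrank F U2' = r := by
    have h2 := Submodule.finrank_add_eq_of_isCompl hcompl
    rw [Module.finrank_fin_fun, hUdim] at h2
    omega
  let JF := J.map (algebraMap C F)
  have hJFs : JFᵀ = JF := by
    change (J.map (algebraMap C F))ᵀ = J.map (algebraMap C F)
    rw [← transpose_map, hJ]
  have hJF : JF.det ≠ 0 := by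
    have : JF.det = algebraMap C F J.det := by
      rw [RingHom.map_det]
      rfl
    rw [this]
    exact (map_ne_zero _).2 hdet
  -- the projections
  let π : (Fin n → F) →ₗ[F] (Fin n → F) := U.projection U2' hcompl.symm
  let π' : (Fin n → F) →ₗ[F] (Fin n → F) := U2'.projection U hcompl
  have hππ : ∀ y, π y + π' y = y := fun y =>
    Submodule.projection_add_projection_eq_self hcompl.symm y
  have hπU : ∀ y, π y ∈ U := fun y => Submodule.projection_apply_mem hcompl.symm y
  have hπ'U : ∀ y, π' y ∈ U2' := fun y => Submodule.projection_apply_mem hcompl y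
  have hP2 : qp JF π - qp JF π' ≠ 0 := by
    intro h2
    have h3 : ∀ y, π y ⬝ᵥ (JF *ᵥ π y) = π' y ⬝ᵥ (JF *ᵥ π' y) := by
      intro y
      rw [← eval_qp, ← eval_qp, ← sub_eq_zero, ← map_sub, h2, map_zero]
    have h4 : ∀ y ∈ U, y ⬝ᵥ (JF *ᵥ y) = 0 := by
      intro y hy
      have h5 : π y = y := Submodule.projection_apply_left hcompl.symm ⟨y, hy⟩
      have h6 : π' y = 0 := by
        have := hππ y
        rw [h5] at this
        simpa using this
      have h7 := h3 y
      rw [h5, h6, mulVec_zero, dotProduct_zero] at h7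
      exact h7
    have h8 : ∀ y ∈ U2', y ⬝ᵥ (JF *ᵥ y) = 0 := by
      intro y hy
      have h5 : π' y = y := Submodule.projection_apply_left hcompl ⟨y, hy⟩
      have h6 : π y = 0 := by
        have := hππ y
        rw [h5] at this
        simpa using this
      have h7 := h3 y
      rw [h5, h6, mulVec_zero, dotProduct_zero] at h7
      exact h7.symm
    have h9 := isotropic_dim JF hJFs hJF U h4
    have h10 := isotropic_dim JF hJFs hJF U2' h8
    rw [hUdim] at h9
    rw [hU2'dim] at h10
    omega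
  have hP1 : qp JF LinearMap.id ≠ 0 := by
    intro h2
    have h3 := isotropic_dim JF hJFs hJF ⊤ (fun y _ => by
      have h4 := eval_qp JF LinearMap.id y
      rw [h2, map_zero] at h4
      exact h4.symm)
    rw [finrank_top, Module.finrank_fin_fun] at h3
    omega
  obtain ⟨v, hv⟩ := nat_point (qp JF LinearMap.id * (qp JF π - qp JF π')) (mul_ne_zero hP1 hP2)
  rw [map_mul, map_sub, eval_qp, eval_qp, eval_qp, LinearMap.id_apply] at hv
  set vF : Fin n → F := fun i => (v i : F) with hvFdef
  have hv1 : vF ⬝ᵥ (JF *ᵥ vF) ≠ 0 := left_ne_zero_of_mul hv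
  have hv2 : π vF ⬝ᵥ (JF *ᵥ π vF) ≠ π' vF ⬝ᵥ (JF *ᵥ π' vF) :=
    sub_ne_zero.1 (right_ne_zero_of_mul hv)
  let vC : Fin n → C := fun i => (v i : C)
  have hvF : (fun i => algebraMap C F (vC i)) = vF := by
    funext i
    simp [vC, vF]
  have hwF : (fun i => algebraMap C F ((J *ᵥ vC) i)) = JF *ᵥ vF := by
    funext i
    rw [← hvF]
    simp [mulVec, dotProduct, JF, map_sum, map_mul]
  have hqF : algebraMap C F (vC ⬝ᵥ (J *ᵥ vC)) = vF ⬝ᵥ (JF *ᵥ vF) := by
    rw [← hwF, ← hvF]
    simp [dotProduct, map_sum, map_mul]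
  have hqC : vC ⬝ᵥ (J *ᵥ vC) ≠ 0 := by
    intro h2
    rw [h2, map_zero] at hqF
    exact hv1 hqF.symm
  obtain ⟨hs1, hs2⟩ := refl_mem J hJ vC hqC
  set q := vC ⬝ᵥ (J *ᵥ vC) with hq
  set g := 1 + vecMulVec ((-2 / q) • (J *ᵥ vC)) vC with hg
  refine ⟨h * g, ⟨?_, ?_⟩, ?_⟩
  · rw [transpose_mul]
    calc h * g * J * (gᵀ * hᵀ) = h * (g * J * gᵀ) * hᵀ := by simp only [Matrix.mul_assoc]
      _ = J := by rw [hs1, hh]
  · rw [det_mul, h1, hs2]
    norm_num
  · intro y hy hy2
    have hgF : ∀ z : Fin n → F, Matrix.vecMul z (g.map (algebraMap C F)) =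
        z + (-2 / (vF ⬝ᵥ (JF *ᵥ vF)) * (z ⬝ᵥ (JF *ᵥ vF))) • vF := by
      intro z
      rw [hg, vecMul_transv, hvF]
      congr 2
      have h2 : (fun i => algebraMap C F (((-2 / q) • (J *ᵥ vC)) i)) =
          algebraMap C F (-2 / q) • (JF *ᵥ vF) := by
        rw [← hwF]
        funext i
        rw [Pi.smul_apply, Pi.smul_apply, smul_eq_mul, smul_eq_mul, map_mul]
      rw [h2, dotProduct_smul, smul_eq_mul, map_div₀, hqF, map_neg, map_ofNat]
    have h3 : Matrix.vecMul y ((h * g).map (algebraMap C F)) =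
        Matrix.vecMul (T y) (g.map (algebraMap C F)) := by
      rw [Matrix.map_mul, ← Matrix.vecMul_vecMul]
      rfl
    rw [h3, hgF] at hy2
    set x := T y with hx
    set Q := vF ⬝ᵥ (JF *ᵥ vF) with hQ
    set c := -2 / Q * (x ⬝ᵥ (JF *ᵥ vF)) with hc
    have hxU : x ∈ U := ⟨y, hy, rfl⟩
    set u := π vF with hu
    set w := π' vF with hw
    have huw : u + w = vF := hππ vF
    have h4 : x + c • u = 0 := by
      have h5 : x + c • u ∈ U := U.add_mem hxU (U.smul_mem c (hπU vF))
      have h6 : x + c • u ∈ U2' := by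
        have h7 : x + c • u = (x + c • vF) - c • w := by
          rw [← huw, smul_add]
          abel
        rw [h7]
        exact U2'.sub_mem (hle hy2) (U2'.smul_mem c (hπ'U vF))
      have h8 := hcompl.disjoint
      rw [Submodule.disjoint_def] at h8
      exact h8 _ h6 h5
    have h5 : c = 0 := by
      by_contra hc0
      apply hv2
      have h6 : x = -(c • u) := eq_neg_of_add_eq_zero_left h4
      have h7 : c * Q = -2 * (x ⬝ᵥ (JF *ᵥ vF)) := by
        rw [hc]
        field_simp
      rw [h6, neg_dotProduct, smul_dotProduct, smul_eq_mul] at h7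
      have h8 : Q = 2 * (u ⬝ᵥ (JF *ᵥ vF)) := by
        apply mul_left_cancel₀ hc0
        linear_combination h7
      rw [hQ, ← huw] at h8
      simp only [mulVec_add, dotProduct_add, add_dotProduct] at h8
      rw [form_symm JF hJFs w u] at h8
      linear_combination -h8
    rw [h5, zero_smul, add_zero] at h4
    apply hTinj
    rw [map_zero]
    exact h4

end orth

end Pool.Agent.V8H79.HY
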