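import Pool.Agent.V8H79.HY.Defs

/-!
# Exact forms with poles along a hypersurface in characteristic `p`
-/

set_option autoImplicit false

open MvPolynomial

namespace Pool.Agent.V8H79.HY

open Pool.Agent.V8H79.BM

section coeffs

variable {R σ : Type*} [CommRing R]

theorem coeff_dco {d : R → R} (hd : d 0 = 0) (P : MvPolynomial σ R) (u : σ →₀ ℕ) :
    coeff u (dco d P) = d (coeff u P) := by
  classical
  unfold dco
  rw [coeff_sum]
  simp only [coeff_monomial]
  rw [Finset.sum_ite_eq']
  split_ifs with h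
  · rfl
  · rw [notMem_support_iff.1 h, hd]

/-- the derivation of the polynomial ring given by a derivation of the coefficients -/
noncomputable def dcd (δ : Derivation ℤ R R) :
    Derivation ℤ (MvPolynomial σ R) (MvPolynomial σ R) :=
  Derivation.mk' (AddMonoidHom.toIntLinearMap
    { toFun := dco δ
      map_zero' := by
        ext u
        rw [coeff_dco (map_zero δ)]
        simp
      map_add' := by
        intro P Q
        ext u
        rw [coeff_add, coeff_dco (map_zero δ), coeff_dco (map_zero δ), coeff_dco (map_zero δ),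
          coeff_add, map_add] }) (by
    classical
    intro P Q
    change dco δ (P * Q) = P * dco δ Q + Q * dco δ P
    ext u
    rw [mul_comm Q (dco δ P), coeff_add, coeff_dco (map_zero δ), coeff_mul, coeff_mul, coeff_mul,
      map_sum, ← Finset.sum_add_distrib]
    refine Finset.sum_congr rfl fun x _ => ?_
    rw [Derivation.leibniz, coeff_dco (map_zero δ), coeff_dco (map_zero δ), smul_eq_mul,
      smul_eq_mul]
    ring)

theorem dcd_apply (δ : Derivation ℤ R R) (P : MvPolynomial σ R) : dcd δ P = dco δ P := rfl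

theorem dcd_C (δ : Derivation ℤ R R) (a : R) : dcd δ (C a : MvPolynomial σ R) = C (δ a) := by
  classical
  ext u
  rw [dcd_apply, coeff_dco (map_zero δ), coeff_C, coeff_C]
  split_ifs <;> simp

end coeffs

section ones

variable {R σ : Type*} [CommRing R] [Fintype σ]

/-- the exponent `(1, ..., 1)` -/
noncomputable def ones (σ : Type*) [Fintype σ] : σ →₀ ℕ := Finsupp.equivFunOnFinite.symm fun _ => 1

theorem ones_apply (l : σ) : ones σ l = 1 := rfl

theorem prod_X : (∏ l : σ, X l : MvPolynomial σ R) = monomial (ones σ) 1 := by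
  classical
  have h1 : ones σ = ∑ l : σ, Finsupp.single l 1 := by
    ext l
    rw [Finsupp.finsetSum_apply, ones_apply, Finset.sum_eq_single l]
    · simp
    · intro b _ hb
      simp [hb]
    · simp
  rw [h1, monomial_sum_one]
  rfl

/-- no monomials with all exponents congruent to `-1` -/
def Ex (p : ℕ) (F : MvPolynomial σ R) : Prop :=
  ∀ u : σ →₀ ℕ, coeff (p • u) (monomial (ones σ) 1 * F) = 0

theorem Ex.add {p : ℕ} {F G : MvPolynomial σ R} (hF : Ex p F) (hG : Ex p G) : Ex p (F + G) := by
  intro u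
  rw [mul_add, coeff_add, hF u, hG u, add_zero]

theorem Ex.sub {p : ℕ} {F G : MvPolynomial σ R} (hF : Ex p F) (hG : Ex p G) : Ex p (F - G) := by
  intro u
  rw [mul_sub, coeff_sub, hF u, hG u, sub_zero]

theorem Ex.C_mul {p : ℕ} {F : MvPolynomial σ R} (hF : Ex p F) (a : R) : Ex p (C a * F) := by
  intro u
  rw [mul_left_comm, coeff_C_mul, hF u, mul_zero]

theorem Ex.zero {p : ℕ} : Ex p (0 : MvPolynomial σ R) := by
  intro u
  simp

theorem Ex.sum {p : ℕ} {ι : Type*} {s : Finset ι} {F : ι → MvPolynomial σ R}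
    (h : ∀ i ∈ s, Ex p (F i)) : Ex p (∑ i ∈ s, F i) := by
  intro u
  rw [Finset.mul_sum, coeff_sum]
  exact Finset.sum_eq_zero fun i hi => h i hi u

theorem ex_pderiv {p : ℕ} [CharP R p] (l : σ) (Q : MvPolynomial σ R) : Ex p (pderiv l Q) := by
  classical
  intro u
  rw [coeff_monomial_mul']
  split_ifs with h
  · rw [one_mul, coeff_pderiv]
    have h1 : (((p • u - ones σ) l : ℕ) : R) + 1 = 0 := by
      have h2 : (p • u - ones σ) l + 1 = p * u l := by
        have h3 := h l
        rw [ones_apply, Finsupp.smul_apply, smul_eq_mul] at h3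
        rw [Finsupp.tsub_apply, ones_apply, Finsupp.smul_apply, smul_eq_mul]
        omega
      have h4 : (((p • u - ones σ) l + 1 : ℕ) : R) = 0 := by
        rw [h2, Nat.cast_mul, CharP.cast_eq_zero, zero_mul]
      exact_mod_cast h4
    rw [h1, mul_zero]
  · rfl

theorem Ex.dco {p : ℕ} {F : MvPolynomial σ R} (hF : Ex p F) {d : R → R} (hd : d 0 = 0) :
    Ex p (dco d F) := by
  intro u
  have h1 := hF u
  rw [coeff_monomial_mul'] at h1 ⊢
  split_ifs with h
  · rw [if_pos h, one_mul] at h1
    rw [one_mul, coeff_dco hd, h1, hd]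
  · rfl

theorem ext_pow {f : MvPolynomial σ R} {S q : ℕ} (hq : ((q + 1 : ℕ) : R) = -(S : R))
    (Q : σ → MvPolynomial σ R) : f ^ q * ext S f Q = ∑ l, pderiv l (Q l * f ^ (q + 1)) := by
  have hq' : (((q : ℕ) : MvPolynomial σ R) + 1) = -((S : ℕ) : MvPolynomial σ R) := by
    have h1 := congrArg (C : R → MvPolynomial σ R) hq
    rw [map_neg, map_natCast, map_natCast] at h1
    rw [← h1]
    push_cast
    ring
  unfold ext
  rw [Finset.mul_sum]
  refine Finset.sum_congr rfl fun l _ => ?_
  rw [pderiv_mul, pderiv_pow, Nat.add_sub_cancel]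
  push_cast
  rw [hq']
  ring

theorem mul_ext {f : MvPolynomial σ R} {s : ℕ} (hs : 1 ≤ s) (Q : σ → MvPolynomial σ R) :
    f * ext (s - 1) f Q = ext s f fun l => f * Q l := by
  obtain ⟨q, rfl⟩ : ∃ q, s = q + 1 := ⟨s - 1, by omega⟩
  unfold ext
  rw [Finset.mul_sum]
  refine Finset.sum_congr rfl fun l _ => ?_
  rw [pderiv_mul, Nat.add_sub_cancel]
  push_cast
  ring

theorem ext_top {p : ℕ} [CharP R p] (hp : 1 ≤ p) (f : MvPolynomial σ R) (Q : σ → MvPolynomial σ R) :
    ext (p - 1) f Q = ∑ l, pderiv l (f * Q l) := by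
  obtain ⟨q, rfl⟩ : ∃ q, p = q + 1 := ⟨p - 1, by omega⟩
  have hq : ((q : ℕ) : MvPolynomial σ R) = -1 := by
    have h1 : (((q + 1 : ℕ) : R)) = 0 := CharP.cast_eq_zero R (q + 1)
    have h2 := congrArg (C : R → MvPolynomial σ R) h1
    rw [map_natCast, map_zero] at h2
    push_cast at h2
    exact eq_neg_of_add_eq_zero_left h2
  unfold ext
  refine Finset.sum_congr rfl fun l _ => ?_
  rw [pderiv_mul, Nat.add_sub_cancel, hq]
  ring

end ones

section weights

variable {R σ Γ : Type*} [CommRing R] [AddCommGroup Γ] {w : σ → Γ}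

theorem pderiv_wh {f : MvPolynomial σ R} {γ : Γ} (hf : IsWeightedHomogeneous w f γ) (l : σ) :
    IsWeightedHomogeneous w (pderiv l f) (γ - w l) := by
  intro u hu
  rw [coeff_pderiv] at hu
  have h1 := hf (left_ne_zero_of_mul hu)
  rw [map_add, Finsupp.weight_single, one_smul] at h1
  exact eq_sub_of_add_eq h1

theorem comp_mul {A B : MvPolynomial σ R} {α β : Γ} (hB : IsWeightedHomogeneous w B β) :
    weightedHomogeneousComponent w (α + β) (A * B) = weightedHomogeneousComponent w α A * B := by
  classical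
  ext u
  rw [coeff_weightedHomogeneousComponent, coeff_mul, coeff_mul]
  have key : ∀ x ∈ Finset.HasAntidiagonal.antidiagonal u, coeff x.1 (weightedHomogeneousComponent w α A) *
      coeff x.2 B = if Finsupp.weight w u = α + β then coeff x.1 A * coeff x.2 B else 0 := by
    intro x hx
    rw [coeff_weightedHomogeneousComponent]
    by_cases h0 : coeff x.2 B = 0
    · simp [h0]
    · have h1 := hB h0
      have h2 : Finsupp.weight w u = Finsupp.weight w x.1 + β := by
        rw [← h1, ← map_add, Finset.HasAntidiagonal.mem_antidiagonal.1 hx]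
      rw [h2]
      by_cases h3 : Finsupp.weight w x.1 = α
      · rw [if_pos h3, if_pos (by rw [h3])]
      · rw [if_neg h3, if_neg (fun h => h3 (add_right_cancel h)), zero_mul]
  rw [Finset.sum_congr rfl key]
  split_ifs
  · rfl
  · simp

variable [Fintype σ]

theorem hom_comp {f : MvPolynomial σ R} {γ κ : Γ} (hf : IsWeightedHomogeneous w f γ)
    {P : MvPolynomial σ R} (hP : IsWeightedHomogeneous w P (κ + γ)) (hJ : P ∈ jac f) :
    ∃ A : σ → MvPolynomial σ R, P = ∑ l, A l * pderiv l f ∧
      ∀ l, IsWeightedHomogeneous w (A l) (κ + w l) := by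
  obtain ⟨A, hA⟩ := (Ideal.mem_span_range_iff_exists_fun).1 hJ
  refine ⟨fun l => weightedHomogeneousComponent w (κ + w l) (A l), ?_, fun l =>
    weightedHomogeneousComponent_isWeightedHomogeneous _ _⟩
  have h1 := hP.weightedHomogeneousComponent_same
  conv_lhs => rw [← h1, ← hA, map_sum]
  refine Finset.sum_congr rfl fun l _ => ?_
  rw [← comp_mul (pderiv_wh hf l)]
  congr 2
  abel

end weights

section charp

variable {K σ Γ : Type*} [Field K] [Fintype σ] [AddCommGroup Γ] {w : σ → Γ} {γ χ : Γ} {S : ℕ}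
  {r n : ℕ} {f : MvPolynomial σ K} {e : Fin n → MvPolynomial σ K}

/-- the form with the coordinates `a` -/
noncomputable def pol (e : Fin n → MvPolynomial σ K) (a : Fin n → K) : MvPolynomial σ K :=
  ∑ i, C (a i) * e i

omit [Fintype σ] in
theorem pol_add (a b : Fin n → K) : pol e (a + b) = pol e a + pol e b := by
  simp [pol, add_mul, Finset.sum_add_distrib]

omit [Fintype σ] in
theorem pol_smul (c : K) (a : Fin n → K) : pol e (c • a) = C c * pol e a := by
  simp [pol, Finset.mul_sum, mul_assoc]

/-- the exact forms -/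
def exm (p S : ℕ) (f : MvPolynomial σ K) (e : Fin n → MvPolynomial σ K) :
    Submodule K (Fin n → K) where
  carrier := {a | Ex p (pol e a * f ^ (p - S))}
  zero_mem' := by
    have : pol e (0 : Fin n → K) = 0 := by simp [pol]
    change Ex p (pol e 0 * f ^ (p - S))
    rw [this, zero_mul]
    exact Ex.zero
  add_mem' {a b} ha hb := by
    change Ex p (pol e (a + b) * f ^ (p - S))
    rw [pol_add, add_mul]
    exact Ex.add ha hb
  smul_mem' c a ha := by
    change Ex p (pol e (c • a) * f ^ (p - S))
    rw [pol_smul, mul_assoc]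
    exact Ex.C_mul ha c

theorem mem_exm {p S : ℕ} {f : MvPolynomial σ K} {e : Fin n → MvPolynomial σ K} {a : Fin n → K} :
    a ∈ exm p S f e ↔ Ex p (pol e a * f ^ (p - S)) := Iff.rfl

theorem exm_flat (p : ℕ) [CharP K p] (hpS : S < p) (δ : Derivation ℤ K K)
    (M : Matrix (Fin n) (Fin n) K) (hM : IsGM δ S f e M) (a : Fin n → K) (ha : a ∈ exm p S f e) :
    nab δ M a ∈ exm p S f e := by
  rw [mem_exm] at ha ⊢
  choose Q hQ using hM
  obtain ⟨q, hq⟩ : ∃ q, p - S = q + 1 := ⟨p - S - 1, by omega⟩
  rw [hq] at ha ⊢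
  have hqS : ((q + 1 : ℕ) : K) = -(S : K) := by
    have h1 : ((q + 1 + S : ℕ) : K) = 0 := by
      rw [show q + 1 + S = p by omega]
      exact CharP.cast_eq_zero K p
    push_cast at h1 ⊢
    linear_combination h1
  have hqS' : ((q : ℕ) : MvPolynomial σ K) + 1 = -((S : ℕ) : MvPolynomial σ K) := by
    have h1 := congrArg (C : K → MvPolynomial σ K) hqS
    rw [map_neg, map_natCast, map_natCast] at h1
    rw [← h1]
    push_cast
    ring
  have h1 := ha.dco (map_zero δ)
  have h2 : dco δ (pol e a * f ^ (q + 1)) = pol e (nab δ M a) * f ^ (q + 1) +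
      ∑ i, ∑ l, pderiv l (C (a i) * Q i l * f ^ (q + 1)) := by
    rw [← dcd_apply, Derivation.leibniz, Derivation.leibniz_pow, Nat.add_sub_cancel, smul_eq_mul,
      smul_eq_mul, smul_eq_mul, nsmul_eq_mul]
    have h3 : dcd δ (pol e a) = ∑ i, (C (a i) * dco δ (e i) + C (δ (a i)) * e i) := by
      unfold pol
      rw [map_sum]
      refine Finset.sum_congr rfl fun i _ => ?_
      rw [Derivation.leibniz, dcd_C, dcd_apply, smul_eq_mul, smul_eq_mul, mul_comm (e i)]
    have h4 : pol e (nab δ M a) = ∑ i, (C (δ (a i)) * e i + C (a i) * ∑ j, C (M i j) * e j) := by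
      unfold pol nab
      simp only [map_add, map_sum, map_mul, add_mul, Finset.sum_add_distrib, Finset.sum_mul,
        Finset.mul_sum]
      congr 1
      rw [Finset.sum_comm]
      exact Finset.sum_congr rfl fun i _ => Finset.sum_congr rfl fun j _ => by ring
    rw [h3, h4]
    have h5 : pol e a * (((q + 1 : ℕ) : MvPolynomial σ K) * (f ^ q * dcd δ f)) =
        ∑ i, C (a i) * (f ^ q * (-((S : ℕ) : MvPolynomial σ K) * e i * dco δ f)) := by
      unfold pol
      rw [Finset.sum_mul]
      refine Finset.sum_congr rfl fun i _ => ?_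
      rw [dcd_apply]
      push_cast
      rw [hqS']
      ring
    rw [h5, Finset.mul_sum, Finset.sum_mul, ← Finset.sum_add_distrib, ← Finset.sum_add_distrib]
    refine Finset.sum_congr rfl fun i _ => ?_
    have h6 : ∑ l, pderiv l (C (a i) * Q i l * f ^ (q + 1)) = C (a i) * (f ^ q * ext S f (Q i)) := by
      rw [ext_pow hqS, Finset.mul_sum]
      refine Finset.sum_congr rfl fun l _ => ?_
      rw [mul_assoc, pderiv_C_mul]
    rw [h6]
    have h7 := hQ i
    linear_combination (C (a i) * f ^ q) * h7
  rw [h2] at h1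
  have h8 := h1.sub (Ex.sum (p := p) (s := Finset.univ) (F := fun i =>
    ∑ l, pderiv l (C (a i) * Q i l * f ^ (q + 1))) fun i _ => Ex.sum fun l _ => ex_pderiv l _)
  rwa [add_sub_cancel_right] at h8

/-- reduction of the order of the pole -/
theorem reduce (p : ℕ) [CharP K p] (hf : IsWeightedHomogeneous w f γ) (hS : 1 ≤ S)
    (hred : ∀ s, S ≤ s → ∀ P, IsForm w γ χ (s + 1) P → P ∈ jac f)
    (hspan : ∀ P, IsForm w γ χ S P → ∃ (a : Fin n → K) (Q : σ → MvPolynomial σ K),
      P = pol e a + ext (S - 1) f Q) (s : ℕ) (hs : S ≤ s) :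
    s ≤ p → ∀ P, IsForm w γ χ s P → ∃ (a : Fin n → K) (Q : σ → MvPolynomial σ K),
      P = f ^ (s - S) * pol e a + ext (s - 1) f Q := by
  induction s, hs using Nat.le_induction with
  | base =>
    intro _ P hP
    obtain ⟨a, Q, h⟩ := hspan P hP
    exact ⟨a, Q, by rw [Nat.sub_self, pow_zero, one_mul]; exact h⟩
  | succ s hs ih =>
    intro hsp P hP
    have hsK : (s : K) ≠ 0 := by
      intro h
      have h1 := (CharP.cast_eq_zero_iff K p s).1 h
      have h2 := Nat.le_of_dvd (by omega) h1
      omega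
    have hP' : IsWeightedHomogeneous w P ((s • γ + χ - ∑ l, w l) + γ) := by
      have h1 : (s • γ + χ - ∑ l, w l) + γ = (s + 1) • γ + χ - ∑ l, w l := by
        rw [succ_nsmul]
        abel
      rw [h1]
      exact hP
    obtain ⟨A, hA, hAw⟩ := hom_comp hf hP' (hred s hs P hP)
    have hP1 : IsForm w γ χ s (∑ l, C ((s : K)⁻¹) * pderiv l (A l)) := by
      refine IsWeightedHomogeneous.sum _ _ _ fun l _ => IsWeightedHomogeneous.C_mul ?_ _
      have h1 := pderiv_wh (hAw l) l
      rwa [add_sub_cancel_right] at h1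
    obtain ⟨a, Q, h⟩ := ih (by omega) _ hP1
    refine ⟨a, fun l => f * Q l - C ((s : K)⁻¹) * A l, ?_⟩
    have h2 : ext s f (fun l => f * Q l - C ((s : K)⁻¹) * A l) =
        ext s f (fun l => f * Q l) + (P - f * ∑ l, C ((s : K)⁻¹) * pderiv l (A l)) := by
      unfold ext
      rw [hA, Finset.mul_sum, ← Finset.sum_sub_distrib, ← Finset.sum_add_distrib]
      refine Finset.sum_congr rfl fun l _ => ?_
      have h3 : (s : MvPolynomial σ K) * C ((s : K)⁻¹) = 1 := by
        rw [← map_natCast (C : K →+* MvPolynomial σ K), ← map_mul, mul_inv_cancel₀ hsK, map_one]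
      rw [map_sub, pderiv_C_mul]
      linear_combination (A l * pderiv l f) * h3
    rw [Nat.add_sub_cancel, h2, ← mul_ext (by omega), h, Nat.succ_sub hs, pow_succ]
    ring

/-- the exact forms have at least the codimension `r` -/
theorem exm_dim (p : ℕ) [CharP K p] (hp : 1 ≤ p) (hpS : S ≤ p) (hf : IsWeightedHomogeneous w f γ)
    (hS : 1 ≤ S) (hred : ∀ s, S ≤ s → ∀ P, IsForm w γ χ (s + 1) P → P ∈ jac f)
    (hspan : ∀ P, IsForm w γ χ S P → ∃ (a : Fin n → K) (Q : σ → MvPolynomial σ K),
      P = pol e a + ext (S - 1) f Q)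
    (v : Fin r → σ →₀ ℕ) (hv : Function.Injective v) (hv1 : ∀ b l, 1 ≤ v b l)
    (hv2 : ∀ b, Finsupp.weight w (v b) = γ + χ) (hχ : p • χ = χ) :
    Module.finrank K (exm p S f e) + r ≤ n := by
  classical
  let Λ : (Fin n → K) →ₗ[K] (Fin r → K) :=
    { toFun := fun a b => coeff (p • v b) (monomial (ones σ) 1 * (pol e a * f ^ (p - S)))
      map_add' := by
        intro x y
        funext b
        rw [pol_add, add_mul, mul_add, coeff_add]
        rfl
      map_smul' := by
        intro c x
        funext b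
        rw [pol_smul, mul_assoc, mul_left_comm, coeff_C_mul]
        rfl }
  have hsurj : LinearMap.range Λ = ⊤ := by
    rw [eq_top_iff]
    intro y _
    have hb : ∀ b : Fin r, (Pi.single b 1 : Fin r → K) ∈ LinearMap.range Λ := by
      intro b
      have hle : ones σ ≤ p • v b := by
        intro l
        rw [ones_apply, Finsupp.smul_apply, smul_eq_mul]
        exact Nat.mul_pos hp (hv1 b l)
      have hw1 : Finsupp.weight w (ones σ) = ∑ l, w l := by
        rw [Finsupp.weight_apply, Finsupp.sum_fintype _ _ (by simp)]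
        simp [ones_apply]
      have hform : IsForm w γ χ p (monomial (p • v b - ones σ) (1 : K)) := by
        refine isWeightedHomogeneous_monomial _ _ _ ?_
        rw [eq_sub_iff_add_eq, ← hw1, ← map_add, tsub_add_cancel_of_le hle, map_nsmul, hv2,
          smul_add, hχ]
      obtain ⟨a, Q, h⟩ := reduce p hf hS hred hspan p hpS le_rfl _ hform
      refine ⟨a, ?_⟩
      funext c
      change coeff (p • v c) (monomial (ones σ) 1 * (pol e a * f ^ (p - S))) = _
      have h1 : pol e a * f ^ (p - S) = monomial (p • v b - ones σ) (1 : K) -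
          ∑ l, pderiv l (f * Q l) := by
        rw [h, ext_top hp]
        ring
      rw [h1, mul_sub, coeff_sub, Ex.sum (p := p) (s := Finset.univ)
        (F := fun l => pderiv l (f * Q l)) (fun l _ => ex_pderiv l _) (v c), sub_zero,
        monomial_mul, one_mul, add_tsub_cancel_of_le hle, coeff_monomial]
      by_cases hbc : c = b
      · subst hbc
        simp
      · rw [if_neg, Pi.single_eq_of_ne hbc]
        intro h2
        apply hbc
        apply hv
        ext l
        have h3 := congrArg (fun u : σ →₀ ℕ => u l) h2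
        simp only [Finsupp.smul_apply, smul_eq_mul] at h3
        exact (Nat.eq_of_mul_eq_mul_left hp h3).symm
    have hy : y = ∑ b, y b • (Pi.single b (1 : K) : Fin r → K) := by
      funext j
      rw [Finset.sum_apply, Finset.sum_eq_single j]
      · simp
      · intro u _ hu
        simp [hu.symm]
      · simp
    rw [hy]
    exact Submodule.sum_mem _ fun b _ => Submodule.smul_mem _ _ (hb b)
  have hker : exm p S f e ≤ LinearMap.ker Λ := by
    intro a ha
    rw [LinearMap.mem_ker]
    funext b
    exact ha (v b)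
  have h1 := LinearMap.finrank_range_add_finrank_ker Λ
  rw [hsurj, finrank_top, Module.finrank_fin_fun, Module.finrank_fin_fun] at h1
  have h2 := Submodule.finrank_mono hker
  omega

/-- a singular Hasse–Witt matrix gives an exact form with a pole of order one -/
theorem exm_hw (p : ℕ) (hp : 1 ≤ p) (hpS : S ≤ p) (hf : IsWeightedHomogeneous w f γ)
    (hS : 1 ≤ S) (hrn : r ≤ n) (v : Fin r → σ →₀ ℕ)
    (hmem : ∀ u, (∃ b, v b = u) ↔ (∀ l, 1 ≤ u l) ∧ Finsupp.weight w u = γ + χ)
    (hfirst : ∀ b : Fin r, (∏ l, X l) * e (Fin.castLE hrn b) = monomial (v b) 1 * f ^ (S - 1))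
    (hχ : p • χ = χ) (htor : ∀ y : Γ, p • y = 0 → y = 0)
    (hdet : (hwm p v f).det = 0) :
    ∃ a ∈ exm p S f e, a ≠ 0 ∧ ∀ i : Fin n, r ≤ (i : ℕ) → a i = 0 := by
  classical
  obtain ⟨c, hc0, hc1⟩ := Matrix.exists_mulVec_eq_zero_iff.2 hdet
  let a : Fin n → K := fun i => if h : (i : ℕ) < r then c ⟨i, h⟩ else 0
  have hacast : ∀ b : Fin r, a (Fin.castLE hrn b) = c b := by
    intro b
    have : ((Fin.castLE hrn b : Fin n) : ℕ) < r := b.2
    simp only [a, dif_pos this]
    rfl
  have hpol : monomial (ones σ) 1 * pol e a = ∑ b, C (c b) * (monomial (v b) 1 * f ^ (S - 1)) := by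
    unfold pol
    rw [Finset.mul_sum]
    have h1 : ∀ i : Fin n, i ∉ Finset.univ.map (Fin.castLEEmb hrn) →
        monomial (ones σ) 1 * (C (a i) * e i) = 0 := by
      intro i hi
      have h2 : ¬ (i : ℕ) < r := by
        intro h
        apply hi
        rw [Finset.mem_map]
        exact ⟨⟨i, h⟩, Finset.mem_univ _, rfl⟩
      simp only [a, dif_neg h2]
      simp
    rw [← Finset.sum_subset (Finset.subset_univ (Finset.univ.map (Fin.castLEEmb hrn)))
      (fun i _ hi => h1 i hi), Finset.sum_map]
    refine Finset.sum_congr rfl fun b _ => ?_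
    rw [Fin.coe_castLEEmb, hacast, mul_left_comm, ← prod_X, hfirst]
  refine ⟨a, ?_, ?_, ?_⟩
  · rw [mem_exm]
    intro u
    have h1 : monomial (ones σ) 1 * (pol e a * f ^ (p - S)) =
        ∑ b, C (c b) * (monomial (v b) 1 * f ^ (p - 1)) := by
      rw [← mul_assoc, hpol, Finset.sum_mul]
      refine Finset.sum_congr rfl fun b _ => ?_
      rw [mul_assoc, mul_assoc, ← pow_add, show S - 1 + (p - S) = p - 1 by omega]
    rw [h1, coeff_sum]
    simp only [coeff_C_mul]
    by_cases hu : ∃ b, v b = u
    · obtain ⟨b', rfl⟩ := hu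
      have h2 := congrFun hc1 b'
      rw [Pi.zero_apply] at h2
      rw [← h2]
      unfold Matrix.mulVec dotProduct
      refine Finset.sum_congr rfl fun b _ => ?_
      rw [mul_comm]
      rfl
    · refine Finset.sum_eq_zero fun b _ => ?_
      by_contra hne
      have h3 := right_ne_zero_of_mul hne
      apply hu
      rw [hmem]
      obtain ⟨h4, h5⟩ := (hmem (v b)).1 ⟨b, rfl⟩
      constructor
      · intro l
        rw [coeff_monomial_mul'] at h3
        split_ifs at h3 with h6
        · have h7 := h6 l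
          rw [Finsupp.smul_apply, smul_eq_mul] at h7
          by_contra h8
          have h9 : u l = 0 := by omega
          rw [h9, mul_zero] at h7
          have := h4 l
          omega
        · exact absurd rfl h3
      · have h6 : IsWeightedHomogeneous w (monomial (v b) 1 * f ^ (p - 1) : MvPolynomial σ K)
            ((γ + χ) + (p - 1) • γ) :=
          (isWeightedHomogeneous_monomial w _ _ h5).mul (hf.pow _)
        have h7 := h6 h3
        have h8 : (γ + χ) + (p - 1) • γ = p • (γ + χ) := by
          have h10 : p • γ = γ + (p - 1) • γ := by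
            rw [← succ_nsmul', Nat.sub_add_cancel hp]
          rw [smul_add, hχ, h10]
          abel
        rw [h8, map_nsmul] at h7
        have h9 : p • (Finsupp.weight w u - (γ + χ)) = 0 := by
          rw [smul_sub, h7, sub_self]
        exact sub_eq_zero.1 (htor _ h9)
  · intro h
    apply hc0
    funext b
    rw [← hacast, h]
    rfl
  · intro i hi
    simp only [a]
    rw [dif_neg (by omega)]

end charp

end Pool.Agent.V8H79.HY
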