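import Pool.Agent.V8H79.HY.Orth
import Pool.Agent.V8H79.HY.Defs

/-!
# A big differential Galois group implies general position
-/

set_option autoImplicit false

open Matrix

namespace Pool.Agent.V8H79.HY

open Pool.Agent.V8H79.BM

theorem big3_gp {k : Type} [Field k] [CharZero k] (δ : Derivation ℤ k k) {n : ℕ}
    (M : Matrix (Fin n) (Fin n) k) (r : ℕ) (hr : r ≤ n) (h : Big3 δ M r) :
    GP δ M r := by
  obtain ⟨E, hE, hA, δE, Φ, ⟨h1, h2, h3⟩, h4⟩ := h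
  have : CharZero E := charZero_of_injective_algebraMap (algebraMap k E).injective
  rcases h4 with ⟨J, hJ1, hJ2, hZ⟩ | ⟨hn, J, hJ1, hJ2, hZ⟩ | hZ
  · exact gp_of_mov δ M r hr δE Φ h1 h2 h3 _ hZ (fun F _ _ _ => mov_of_trans hr (trans_sp J hJ1 hJ2))
  · exact gp_of_mov δ M r hr δE Φ h1 h2 h3 _ hZ (fun F _ _ _ => mov_so J hJ1 hJ2 hr hn)
  · exact gp_of_mov δ M r hr δE Φ h1 h2 h3 _ hZ (fun F _ _ _ => mov_of_trans hr trans_sl)

end Pool.Agent.V8H79.HY
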