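import Pool.Agent.V8H79.HY.PA

/-!
# Spreading out the data
-/

set_option autoImplicit false

open MvPolynomial

namespace Pool.Agent.V8H79.HY

open Pool.Agent.V8H79.BM

/-- `f = 0` is a quasi-smooth hypersurface of degree `γ` for the weights `w`, and the forms `e_i Ω / f ^ S`
span the eigenspace `χ` of the cohomology of its complement, and start with the forms
`x ^ (v_b - 1) Ω / f`, `b < r`, a basis of the forms with poles of order one. -/
structure IsSystem {k σ Γ : Type*} [Field k] [Fintype σ] [AddCommGroup Γ] (w : σ → Γ) (γ χ : Γ)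
    (S : ℕ) {r n : ℕ} (hrn : r ≤ n) (f : MvPolynomial σ k) (v : Fin r → σ →₀ ℕ)
    (e : Fin n → MvPolynomial σ k) : Prop where
  /-- `f` is weighted homogeneous -/
  hom : IsWeightedHomogeneous w f γ
  /-- forms with poles of order `≥ S + 1` can be reduced -/
  red : ∀ s, S ≤ s → ∀ P, IsForm w γ χ (s + 1) P → P ∈ jac f
  /-- `1 ≤ S` -/
  one_le : 1 ≤ S
  /-- there are finitely many monomial forms with poles of order `S` -/
  fin : {u : σ →₀ ℕ | Finsupp.weight w u = S • γ + χ - ∑ l, w l}.Finite
  /-- the `v_b` are distinct -/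
  inj : Function.Injective v
  /-- the `v_b` are the exponents with weight `γ + χ` without zeros -/
  mem : ∀ u, (∃ b, v b = u) ↔ (∀ l, 1 ≤ u l) ∧ Finsupp.weight w u = γ + χ
  /-- `e_b = f ^ (S - 1) x ^ (v_b - 1)` for `b < r` -/
  first : ∀ b : Fin r, (∏ l, X l) * e (Fin.castLE hrn b) = monomial (v b) 1 * f ^ (S - 1)
  /-- all forms with poles of order `S` are linear combinations of the `e_i Ω / f ^ S` and exact forms -/
  span : ∀ P, IsForm w γ χ S P → ∃ (a : Fin n → k) (Q : σ → MvPolynomial σ k),
    P = ∑ i, C (a i) * e i + ext (S - 1) f Q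

section maps

variable {R S σ : Type*} [CommRing R] [CommRing S] (φ : R →+* S)

theorem map_dco {d : R → R} {δ : S → S} (hd : d 0 = 0) (hδ : δ 0 = 0) (h : ∀ x, δ (φ x) = φ (d x))
    (P : MvPolynomial σ R) : map φ (dco d P) = dco δ (map φ P) := by
  ext u
  rw [coeff_map, coeff_dco hd, coeff_dco hδ, coeff_map, h]

theorem map_wh {Γ : Type*} [AddCommGroup Γ] {w : σ → Γ} {γ : Γ} {f : MvPolynomial σ R}
    (hf : IsWeightedHomogeneous w f γ) : IsWeightedHomogeneous w (map φ f) γ := by
  intro u hu
  rw [coeff_map] at hu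
  exact hf fun h => hu (by rw [h, map_zero])

theorem wh_of_map {Γ : Type*} [AddCommGroup Γ] {w : σ → Γ} {γ : Γ} {f : MvPolynomial σ R}
    (hφ : Function.Injective φ) (hf : IsWeightedHomogeneous w (map φ f) γ) :
    IsWeightedHomogeneous w f γ := by
  intro u hu
  apply hf
  rw [coeff_map]
  intro h
  exact hu (hφ (by rw [h, map_zero]))

theorem map_hwm (p : ℕ) {r : ℕ} (v : Fin r → σ →₀ ℕ) (f : MvPolynomial σ R) :
    φ (hwm p v f).det = (hwm p v (map φ f)).det := by
  rw [RingHom.map_det]
  congr 1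
  ext a b
  change φ (coeff (p • v a) (monomial (v b) 1 * f ^ (p - 1))) =
    coeff (p • v a) (monomial (v b) 1 * map φ f ^ (p - 1))
  rw [← coeff_map, map_mul, map_pow, map_monomial, map_one]

theorem map_jac {f P : MvPolynomial σ R} [Fintype σ] (h : P ∈ jac f) : map φ P ∈ jac (map φ f) := by
  obtain ⟨A, hA⟩ := (Ideal.mem_span_range_iff_exists_fun).1 h
  refine (Ideal.mem_span_range_iff_exists_fun).2 ⟨fun l => map φ (A l), ?_⟩
  rw [← hA, map_sum]
  refine Finset.sum_congr rfl fun l _ => ?_
  rw [map_mul, pderiv_map]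

variable [Fintype σ]

theorem map_ext (s : ℕ) (f : MvPolynomial σ R) (Q : σ → MvPolynomial σ R) :
    map φ (ext s f Q) = ext s (map φ f) fun l => map φ (Q l) := by
  unfold ext
  rw [map_sum]
  refine Finset.sum_congr rfl fun l _ => ?_
  simp only [map_sub, map_mul, map_natCast, pderiv_map]

theorem map_gm {d : R → R} {δ : S → S} (hd : d 0 = 0) (hδ : δ 0 = 0) (h : ∀ x, δ (φ x) = φ (d x))
    {n s : ℕ} {f : MvPolynomial σ R} {e : Fin n → MvPolynomial σ R}
    {M : Matrix (Fin n) (Fin n) R} (hM : IsGM d s f e M) :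
    IsGM δ s (map φ f) (fun i => map φ (e i)) (M.map φ) := by
  intro i
  obtain ⟨Q, hQ⟩ := hM i
  refine ⟨fun l => map φ (Q l), ?_⟩
  have h1 := congrArg (map φ) hQ
  simp only [map_sub, map_add, map_mul, map_natCast, map_sum, map_dco φ hd hδ h, map_ext,
    map_C] at h1
  exact h1

end maps

section lifts

variable {k : Type} [Field k] {σ : Type}

theorem lift_poly (B : Subalgebra ℤ k) (P : MvPolynomial σ k) (h : (P.coeffs : Set k) ⊆ B) :
    ∃ PB : MvPolynomial σ B, map (algebraMap B k) PB = P := by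
  have h1 : P ∈ Set.range (MvPolynomial.map (σ := σ) (algebraMap B k)) := by
    rw [mem_range_map_iff_coeffs_subset]
    intro x hx
    exact ⟨⟨x, h hx⟩, rfl⟩
  exact h1

variable [Fintype σ]

/-- the Gauss–Manin matrix over a ring -/
theorem lift_gm {δ : k → k} {n s : ℕ} {f : MvPolynomial σ k} {e : Fin n → MvPolynomial σ k}
    {M : Matrix (Fin n) (Fin n) k} (hδ : δ 0 = 0) (hM : IsGM δ s f e M) :
    ∃ Y : Set k, Y.Finite ∧ ∀ B : Subalgebra ℤ k, Y ⊆ B →
      ∀ d : B → B, (∀ y : B, ((d y : B) : k) = δ y) →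
      ∀ (fB : MvPolynomial σ B) (eB : Fin n → MvPolynomial σ B), map (algebraMap B k) fB = f →
        (∀ i, map (algebraMap B k) (eB i) = e i) →
        ∃ MB : Matrix (Fin n) (Fin n) B, MB.map (algebraMap B k) = M ∧ IsGM d s fB eB MB := by
  classical
  choose Q hQ using hM
  refine ⟨(Set.range fun ij : Fin n × Fin n => M ij.1 ij.2) ∪
    ⋃ i, ⋃ l, ((Q i l).coeffs : Set k), ?_, ?_⟩
  · exact (Set.finite_range _).union
      (Set.finite_iUnion fun i => Set.finite_iUnion fun l => Finset.finite_toSet _)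
  · intro B hYB d hd fB eB hfB heB
    have hinj : Function.Injective (algebraMap B k) := Subtype.val_injective
    have hMB : ∀ i j, M i j ∈ B := fun i j => hYB (Or.inl ⟨(i, j), rfl⟩)
    have hQB : ∀ i l, ∃ q : MvPolynomial σ B, map (algebraMap B k) q = Q i l := fun i l =>
      lift_poly B _ fun x hx => hYB (Or.inr (Set.mem_iUnion.2 ⟨i, Set.mem_iUnion.2 ⟨l, hx⟩⟩))
    choose QB hQB using hQB
    have hd0 : d 0 = 0 := by
      apply Subtype.ext
      rw [hd]
      exact hδ
    refine ⟨Matrix.of fun i j => ⟨M i j, hMB i j⟩, rfl, fun i => ⟨QB i, ?_⟩⟩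
    apply map_injective (algebraMap B k) hinj
    simp only [map_sub, map_add, map_mul, map_natCast, map_sum,
      map_dco (algebraMap B k) hd0 hδ (fun x => (hd x).symm), map_ext, map_C, hfB, heB, hQB]
    exact hQ i

/-- a finite part of the data of a system which is used -/
theorem lift_sys {Γ : Type} [AddCommGroup Γ] {w : σ → Γ} {γ χ : Γ} {S r n : ℕ} {hrn : r ≤ n}
    {f : MvPolynomial σ k} {v : Fin r → σ →₀ ℕ} {e : Fin n → MvPolynomial σ k}
    (h : IsSystem w γ χ S hrn f v e) :
    ∃ Y : Set k, Y.Finite ∧ ∀ B : Subalgebra ℤ k, Y ⊆ B →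
      ∃ (fB : MvPolynomial σ B) (eB : Fin n → MvPolynomial σ B), map (algebraMap B k) fB = f ∧
        (∀ i, map (algebraMap B k) (eB i) = e i) ∧
        (∀ (K : Type) [Field K] (φ : B →+* K),
          IsWeightedHomogeneous w (map φ fB) γ ∧
          (∀ s, S ≤ s → ∀ P, IsForm w γ χ (s + 1) P → P ∈ jac (map φ fB)) ∧
          (∀ b : Fin r, (∏ l, X l) * map φ (eB (Fin.castLE hrn b)) =
            monomial (v b) 1 * map φ fB ^ (S - 1)) ∧
          (∀ P, IsForm w γ χ S P → ∃ (a : Fin n → K) (Q : σ → MvPolynomial σ K),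
            P = pol (fun i => map φ (eB i)) a + ext (S - 1) (map φ fB) Q)) := by
  classical
  -- the minimal exponents
  let T : Set (σ →₀ ℕ) := {u | ∃ s, S ≤ s ∧ Finsupp.weight w u = (s + 1) • γ + χ - ∑ l, w l}
  let Tm : Set (σ →₀ ℕ) := {u | Minimal (· ∈ T) u}
  have hTm : Tm.Finite := (setOfPred_minimal_antichain (· ∈ T)).finite_of_partiallyWellOrderedOn
    (Set.isPWO_of_wellQuasiOrderedLE _)
  have hTJ : ∀ u ∈ T, monomial u (1 : k) ∈ jac f := by
    rintro u ⟨s, hs, hu⟩
    exact h.red s hs _ (isWeightedHomogeneous_monomial _ _ _ hu)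
  -- the data
  have hU : ∀ u : σ →₀ ℕ, ∃ A : σ → MvPolynomial σ k, monomial u 1 ∈ jac f →
      ∑ l, A l * pderiv l f = monomial u 1 := by
    intro u
    by_cases hu : monomial u (1 : k) ∈ jac f
    · obtain ⟨A, hA⟩ := (Ideal.mem_span_range_iff_exists_fun).1 hu
      exact ⟨A, fun _ => hA⟩
    · exact ⟨0, fun h => absurd h hu⟩
  choose A hA using hU
  have hV : ∀ u : σ →₀ ℕ, ∃ (a : Fin n → k) (Q : σ → MvPolynomial σ k),
      Finsupp.weight w u = S • γ + χ - ∑ l, w l →
      monomial u 1 = ∑ i, C (a i) * e i + ext (S - 1) f Q := by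
    intro u
    by_cases hu : Finsupp.weight w u = S • γ + χ - ∑ l, w l
    · obtain ⟨a, Q, h1⟩ := h.span (monomial u 1) (isWeightedHomogeneous_monomial _ _ _ hu)
      exact ⟨a, Q, fun _ => h1⟩
    · exact ⟨0, 0, fun h => absurd h hu⟩
  choose a Q haQ using hV
  let V := {u : σ →₀ ℕ | Finsupp.weight w u = S • γ + χ - ∑ l, w l}
  refine ⟨(f.coeffs : Set k) ∪ (⋃ i, ((e i).coeffs : Set k)) ∪
    (⋃ u ∈ Tm, ⋃ l, ((A u l).coeffs : Set k)) ∪
    (⋃ u ∈ V, Set.range (a u)) ∪ (⋃ u ∈ V, ⋃ l, ((Q u l).coeffs : Set k)), ?_, ?_⟩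
  · refine Set.Finite.union (Set.Finite.union (Set.Finite.union (Set.Finite.union ?_ ?_) ?_) ?_) ?_
    · exact Finset.finite_toSet _
    · exact Set.finite_iUnion fun i => Finset.finite_toSet _
    · exact hTm.biUnion fun u _ => Set.finite_iUnion fun l => Finset.finite_toSet _
    · exact h.fin.biUnion fun u _ => Set.finite_range _
    · exact h.fin.biUnion fun u _ => Set.finite_iUnion fun l => Finset.finite_toSet _
  · intro B hYB
    have hinj : Function.Injective (algebraMap B k) := Subtype.val_injective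
    obtain ⟨fB, hfB⟩ := lift_poly B f fun x hx =>
      hYB (Or.inl (Or.inl (Or.inl (Or.inl hx))))
    have heB : ∀ i, ∃ q : MvPolynomial σ B, map (algebraMap B k) q = e i := fun i =>
      lift_poly B _ fun x hx => hYB (Or.inl (Or.inl (Or.inl (Or.inr (Set.mem_iUnion.2 ⟨i, hx⟩)))))
    choose eB heB using heB
    refine ⟨fB, eB, hfB, heB, ?_⟩
    have hUB : ∀ u ∈ Tm, monomial u (1 : B) ∈ jac fB := by
      intro u hu
      have huJ := hTJ u hu.1
      have h1 : ∀ l, ∃ q : MvPolynomial σ B, map (algebraMap B k) q = A u l := fun l =>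
        lift_poly B _ fun x hx => hYB (Or.inl (Or.inl (Or.inr
          (Set.mem_iUnion₂.2 ⟨u, hu, Set.mem_iUnion.2 ⟨l, hx⟩⟩))))
      choose AB hAB using h1
      refine (Ideal.mem_span_range_iff_exists_fun).2 ⟨AB, ?_⟩
      apply map_injective (algebraMap B k) hinj
      rw [map_sum, map_monomial, map_one, ← hA u huJ]
      refine Finset.sum_congr rfl fun l _ => ?_
      rw [map_mul, ← pderiv_map, hAB, hfB]
    have hVB : ∀ u ∈ V, ∃ (aB : Fin n → B) (QB : σ → MvPolynomial σ B),
        monomial u (1 : B) = ∑ i, C (aB i) * eB i + ext (S - 1) fB QB := by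
      intro u hu
      have h1 : ∀ l, ∃ q : MvPolynomial σ B, map (algebraMap B k) q = Q u l := fun l =>
        lift_poly B _ fun x hx => hYB (Or.inr
          (Set.mem_iUnion₂.2 ⟨u, hu, Set.mem_iUnion.2 ⟨l, hx⟩⟩))
      choose QB hQB using h1
      have h2 : ∀ i, a u i ∈ B := fun i => hYB (Or.inl (Or.inr (Set.mem_iUnion₂.2 ⟨u, hu, i, rfl⟩)))
      refine ⟨fun i => ⟨a u i, h2 i⟩, QB, ?_⟩
      apply map_injective (algebraMap B k) hinj
      simp only [map_monomial, map_one, map_add, map_sum, map_mul, map_C, map_ext, hfB, heB, hQB]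
      exact haQ u hu
    intro K _ φ
    have hmono : ∀ u : σ →₀ ℕ, monomial u (1 : B) ∈ jac fB → monomial u (1 : K) ∈ jac (map φ fB) := by
      intro u hu
      have := map_jac φ hu
      rwa [map_monomial, map_one] at this
    refine ⟨map_wh φ (wh_of_map _ hinj (by rw [hfB]; exact h.hom)), ?_, ?_, ?_⟩
    · intro s hs P hP
      rw [P.as_sum]
      refine Ideal.sum_mem _ fun u hu => ?_
      have hwu : Finsupp.weight w u = (s + 1) • γ + χ - ∑ l, w l := hP (mem_support_iff.1 hu)
      have h1 : monomial u (1 : K) ∈ jac (map φ fB) := by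
        obtain ⟨u0, hu0, hmin⟩ := exists_minimal_le_of_wellFoundedLT (· ∈ T) u ⟨s, hs, hwu⟩
        have h6 : monomial u (1 : K) = monomial (u - u0) 1 * monomial u0 1 := by
          rw [monomial_mul, one_mul, tsub_add_cancel_of_le hu0]
        rw [h6]
        exact Ideal.mul_mem_left _ _ (hmono _ (hUB u0 hmin))
      have h2 : monomial u (coeff u P) = C (coeff u P) * monomial u (1 : K) := by
        rw [C_mul_monomial, mul_one]
      rw [h2]
      exact Ideal.mul_mem_left _ _ h1
    · intro b
      have h1 : (∏ l, X l) * eB (Fin.castLE hrn b) = monomial (v b) 1 * fB ^ (S - 1) := by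
        apply map_injective (algebraMap B k) hinj
        simp only [map_mul, map_prod, map_X, map_pow, map_monomial, map_one, hfB, heB]
        exact h.first b
      have h2 := congrArg (map φ) h1
      simpa only [map_mul, map_prod, map_X, map_pow, map_monomial, map_one] using h2
    · intro P hP
      have h1 : ∀ T : Finset (σ →₀ ℕ), T ⊆ P.support →
          ∃ (a : Fin n → K) (Q : σ → MvPolynomial σ K),
            ∑ u ∈ T, monomial u (coeff u P) =
              pol (fun i => map φ (eB i)) a + ext (S - 1) (map φ fB) Q := by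
        intro T
        induction T using Finset.induction_on with
        | empty =>
          intro _
          exact ⟨0, 0, by simp [pol, ext]⟩
        | insert u T huT ih =>
          intro hT
          obtain ⟨a1, Q1, h2⟩ := ih (fun x hx => hT (Finset.mem_insert_of_mem hx))
          have hu : u ∈ V := hP (mem_support_iff.1 (hT (Finset.mem_insert_self u T)))
          obtain ⟨a2, Q2, h3⟩ := hVB u hu
          have h4 := congrArg (map φ) h3
          simp only [map_monomial, map_one, map_add, map_sum, map_mul, map_C, map_ext] at h4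
          refine ⟨a1 + coeff u P • fun i => φ (a2 i), fun l => Q1 l + C (coeff u P) * map φ (Q2 l),
            ?_⟩
          rw [Finset.sum_insert huT, h2]
          have h5 : monomial u (coeff u P) = C (coeff u P) * monomial u (1 : K) := by
            rw [C_mul_monomial, mul_one]
          rw [h5, h4, pol_add, pol_smul]
          have h6 : ext (S - 1) (map φ fB) (fun l => Q1 l + C (coeff u P) * map φ (Q2 l)) =
              ext (S - 1) (map φ fB) Q1 +
                C (coeff u P) * ext (S - 1) (map φ fB) (fun l => map φ (Q2 l)) := by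
            unfold ext
            rw [Finset.mul_sum, ← Finset.sum_add_distrib]
            refine Finset.sum_congr rfl fun l _ => ?_
            rw [map_add, pderiv_C_mul]
            ring
          rw [h6]
          unfold pol
          ring
      have h2 := h1 P.support (Finset.Subset.refl _)
      rwa [← P.as_sum] at h2

end lifts

end Pool.Agent.V8H79.HY
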