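import Pool.Agent.V8H79.HY.PC
import Pool.Agent.V8H79.HY.PB
import Pool.Agent.V8H79.BM.PK

/-!
# The Hasse–Witt matrices at differential primes and at closed points
-/

set_option autoImplicit false

open MvPolynomial

namespace Pool.Agent.V8H79.HY

open Pool.Agent.V8H79.BM (GP nab exists_ring exists_res not_gp jac_int)

/-- one system: the Hasse–Witt determinant vanishes at finitely many of the primes only. -/
theorem single {k : Type} [Field k] [CharZero k] {σ Γ : Type} [Fintype σ] [AddCommGroup Γ]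
    {w : σ → Γ} {γ χ : Γ} {S r n : ℕ} (hrn : r ≤ n) {v : Fin r → σ →₀ ℕ} (t : ℕ)
    (htor : ∀ (y : Γ) (m : ℕ), m ≠ 0 → m • y = 0 → t • y = 0) (hχ : t • χ = 0) (hS : 1 ≤ S)
    (hinj : Function.Injective v)
    (hmem : ∀ u, (∃ b, v b = u) ↔ (∀ l, 1 ≤ u l) ∧ Finsupp.weight w u = γ + χ)
    (B : Subalgebra ℤ k) (N0 : ℕ) (Q : ℕ → Ideal B)
    (hQ : ∀ p, N0 ≤ p → p.Prime → (Q p).IsPrime ∧ ((p : ℕ) : B) ∈ Q p)
    (hQfin : ∀ y : B, y ≠ 0 → {p : ℕ | p.Prime ∧ N0 ≤ p ∧ y ∈ Q p}.Finite)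
    (fB : MvPolynomial σ B) (eB : Fin n → MvPolynomial σ B)
    (hsys : ∀ (K : Type) [Field K] (φ : B →+* K),
          IsWeightedHomogeneous w (map φ fB) γ ∧
          (∀ s, S ≤ s → ∀ P, IsForm w γ χ (s + 1) P → P ∈ jac (map φ fB)) ∧
          (∀ b : Fin r, (∏ l, X l) * map φ (eB (Fin.castLE hrn b)) =
            monomial (v b) 1 * map φ fB ^ (S - 1)) ∧
          (∀ P, IsForm w γ χ S P → ∃ (a : Fin n → K) (Q : σ → MvPolynomial σ K),
            P = pol (fun i => map φ (eB i)) a + ext (S - 1) (map φ fB) Q))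
    (h : 0 < r → r < n → ∃ (δ : Derivation ℤ k k) (d : B →+ B) (_ : ∀ y : B, ((d y : B) : k) = δ y)
      (_ : ∀ p, N0 ≤ p → p.Prime → ∀ y ∈ Q p, d y ∈ Q p)
      (M : Matrix (Fin n) (Fin n) B), IsGM d S fB eB M ∧
        GP δ (M.map (algebraMap B k)) r) :
    {p : ℕ | p.Prime ∧ N0 ≤ p ∧ t ∣ p - 1 ∧ (hwm p v fB).det ∈ Q p}.Finite := by
  classical
  by_contra hinf
  have hinf2 := (Set.Infinite.sdiff hinf (Set.finite_Iic S))
  set T := {p : ℕ | p.Prime ∧ N0 ≤ p ∧ t ∣ p - 1 ∧ (hwm p v fB).det ∈ Q p} \ Set.Iic S with hT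
  -- facts for one prime
  have hfact : ∀ p ∈ T, ∀ (K : Type) [Field K] (φ : B →+* K), (∀ x, φ x = 0 ↔ x ∈ Q p) →
      CharP K p ∧ 1 ≤ p ∧ S < p ∧ p • χ = χ ∧ (∀ y : Γ, p • y = 0 → y = 0) ∧
      (hwm p v (map φ fB)).det = 0 := by
    rintro p ⟨⟨hp, hp0, htp, hdet⟩, hpS⟩ K _ φ hφ
    obtain ⟨hQp, hpQ⟩ := hQ p hp0 hp
    have hK0 : ((p : ℕ) : K) = 0 := by
      have := (hφ (p : B)).2 hpQ
      rwa [map_natCast] at this
    have hchar : CharP K p := by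
      obtain ⟨q, hq⟩ := CharP.exists K
      have h1 : q ∣ p := (CharP.cast_eq_zero_iff K q p).1 hK0
      rcases (Nat.dvd_prime hp).1 h1 with h2 | h2
      · subst h2
        exact absurd (CharP.char_ne_one K 1 rfl) (by simp)
      · rwa [← h2]
    obtain ⟨q, hq⟩ := htp
    have hpq : p = q * t + 1 := by
      rw [mul_comm q t, ← hq]
      exact (Nat.sub_add_cancel hp.one_le).symm
    refine ⟨hchar, hp.one_le, not_le.1 hpS, ?_, ?_, ?_⟩
    · rw [hpq, succ_nsmul, mul_nsmul', hχ, smul_zero, zero_add]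
    · intro y hy
      have h1 := htor y p hp.ne_zero hy
      rw [hpq, succ_nsmul, mul_nsmul', h1, smul_zero, zero_add] at hy
      exact hy
    · rw [← map_hwm]
      exact (hφ _).2 hdet
  rcases Nat.eq_zero_or_pos r with h0 | h0
  · obtain ⟨p, hp⟩ := hinf2.nonempty
    obtain ⟨⟨hp1, hp0, -, hdet⟩, -⟩ := hp
    subst h0
    rw [Matrix.det_isEmpty] at hdet
    exact (hQ p hp0 hp1).1.ne_top ((Ideal.eq_top_iff_one _).2 hdet)
  -- the space of the exact forms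
  have hexm : ∀ p ∈ T, ∀ (K : Type) [Field K] (φ : B →+* K), (∀ x, φ x = 0 ↔ x ∈ Q p) →
      Module.finrank K (exm p S (map φ fB) fun i => map φ (eB i)) + r ≤ n ∧
      ∃ a ∈ exm p S (map φ fB) fun i => map φ (eB i), a ≠ 0 ∧
        ∀ i : Fin n, r ≤ (i : ℕ) → a i = 0 := by
    intro p hp K _ φ hφ
    obtain ⟨h1, h2, h3, h4, h5, h6⟩ := hfact p hp K φ hφ
    obtain ⟨h7, h8, h9, h10⟩ := hsys K φ
    exact ⟨exm_dim p h2 h3.le h7 hS h8 h10 v hinj (fun b => ((hmem _).1 ⟨b, rfl⟩).1)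
      (fun b => ((hmem _).1 ⟨b, rfl⟩).2) h4, exm_hw p h2 h3.le h7 hS hrn v hmem h9 h4 h5 h6⟩
  rcases Nat.lt_or_ge r n with hrn' | hrn'
  · -- the main case
    obtain ⟨δ, d, hd, hdQ, M, hGM, hGP⟩ := h h0 hrn'
    have hdl : ∀ x y : B, d (x * y) = x * d y + y * d x := by
      intro x y
      apply Subtype.ext
      rw [hd]
      push_cast
      rw [Derivation.leibniz, hd, hd]
      rfl
    have : Infinite T := hinf2.to_subtype
    have hex : ∀ p : T, ∃ (K : Type) (_ : Field K) (δK : Derivation ℤ K K) (φ : B →+* K),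
        (∀ x, δK (φ x) = φ (d x)) ∧ ∀ x, φ x = 0 ↔ x ∈ Q p := by
      rintro ⟨p, ⟨hp, hp0, htp, hdet⟩, hpS⟩
      exact exists_res d hdl (Q p) (hQ p hp0 hp).1 (hdQ p hp0 hp)
    choose K hK δK φ hφ1 hφ2 using hex
    refine not_gp δ B d hdl (algebraMap B k) Subtype.val_injective (fun x => (hd x).symm) M
      K δK φ hφ1 ?_ (fun p => exm p S (map (φ p) fB) fun i => map (φ p) (eB i))
      (fun p => (hexm p p.2 (K p) (φ p) (hφ2 p)).1) ?_
      (fun p => (hexm p p.2 (K p) (φ p) (hφ2 p)).2) hGP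
    · intro x hx
      have h1 : {p : T | φ p x = 0} ⊆
          (fun p : T => (p : ℕ)) ⁻¹' {p : ℕ | p.Prime ∧ N0 ≤ p ∧ x ∈ Q p} := by
        intro p hp
        exact ⟨p.2.1.1, p.2.1.2.1, (hφ2 p x).1 hp⟩
      exact ((hQfin x hx).preimage Subtype.val_injective.injOn).subset h1
    · intro p a ha
      obtain ⟨h1, h2, h3, h4, h5, h6⟩ := hfact p p.2 (K p) (φ p) (hφ2 p)
      exact exm_flat (p : ℕ) h3 (δK p) (M.map (φ p))
        (map_gm (φ p) (map_zero d) (map_zero (δK p)) (hφ1 p) hGM) a ha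
  · -- `r = n`
    obtain ⟨p, hp⟩ := hinf2.nonempty
    have hp' := hp
    obtain ⟨⟨hp1, hp0, -, hdet⟩, -⟩ := hp'
    obtain ⟨K, hK, δK, φ, -, hφ2⟩ := exists_res (0 : B →+ B) (by simp) (Q p) (hQ p hp0 hp1).1
      (by simp)
    obtain ⟨h1, a, ha1, ha2, -⟩ := hexm p hp K φ hφ2
    have hL0 : Module.finrank K (exm p S (map φ fB) fun i => map φ (eB i)) = 0 := by omega
    have : (exm p S (map φ fB) fun i => map φ (eB i)) = ⊥ := Submodule.finrank_eq_zero.1 hL0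
    rw [this] at ha1
    exact ha2 ((Submodule.mem_bot K).1 ha1)

/-- closed points -/
theorem closing {k : Type} [Field k] {ι : Type} [Fintype ι] (A B : Subalgebra ℤ k) (hAB : A ≤ B)
    (hA : A.FG) (N0 : ℕ) (Q : ℕ → Ideal B)
    (hQ : ∀ p, N0 ≤ p → p.Prime → (Q p).IsPrime ∧ ((p : ℕ) : B) ∈ Q p)
    (hQfin : ∀ y : B, y ≠ 0 → {p : ℕ | p.Prime ∧ N0 ≤ p ∧ y ∈ Q p}.Finite)
    (cond : ι → ℕ → Prop) (D : ι → ℕ → A)
    (hfin : ∀ c, {p : ℕ | p.Prime ∧ N0 ≤ p ∧ cond c p ∧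
      (Subalgebra.inclusion hAB).toRingHom (D c p) ∈ Q p}.Finite) (g : A) (hg : g ≠ 0) :
    ∃ N : ℕ, ∀ p : ℕ, N ≤ p → p.Prime → (∀ c, cond c p) → ∃ M : Ideal A, M.IsMaximal ∧
      (p : A) ∈ M ∧ g ∉ M ∧ ∀ c, D c p ∉ M := by
  classical
  let iA : A →+* B := (Subalgebra.inclusion hAB).toRingHom
  have hiA : Function.Injective iA := Subalgebra.inclusion_injective hAB
  let bad : Set ℕ := {p : ℕ | p.Prime ∧ N0 ≤ p ∧ iA g ∈ Q p} ∪
    ⋃ c, {p : ℕ | p.Prime ∧ N0 ≤ p ∧ cond c p ∧ iA (D c p) ∈ Q p}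
  have hbad : bad.Finite :=
    (hQfin _ ((map_ne_zero_iff iA hiA).2 hg)).union (Set.finite_iUnion hfin)
  obtain ⟨N1, hN1⟩ := hbad.bddAbove
  refine ⟨max N0 (N1 + 1), fun p hp hpp hc => ?_⟩
  have hpN0 : N0 ≤ p := (le_max_left _ _).trans hp
  have hpbad : p ∉ bad := fun h => by
    have h1 : p ≤ N1 := hN1 h
    have h2 : N1 + 1 ≤ p := (le_max_right _ _).trans hp
    omega
  obtain ⟨hQp, hpQ⟩ := hQ p hpN0 hpp
  let M0 : Ideal A := (Q p).comap iA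
  have hM0 : M0.IsPrime := Ideal.comap_isPrime iA (Q p)
  have hpM0 : (p : A) ∈ M0 := by
    change iA (p : A) ∈ Q p
    rwa [map_natCast]
  have hgM0 : g ∉ M0 := fun h => hpbad (Or.inl ⟨hpp, hpN0, h⟩)
  have hdM0 : ∀ c, D c p ∉ M0 := fun c h =>
    hpbad (Or.inr (Set.mem_iUnion.2 ⟨c, hpp, hpN0, hc c, h⟩))
  have hprod : g * ∏ c, D c p ∉ M0 := by
    intro hm
    rcases hM0.mem_or_mem hm with h1 | h1
    · exact hgM0 h1
    · obtain ⟨i, -, hi⟩ := (hM0.prod_mem_iff).1 h1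
      exact hdM0 i hi
  have hfA : Algebra.FiniteType ℤ A := (Subalgebra.fg_iff_finiteType _).mp hA
  have hJ : IsJacobsonRing A := by
    have := jac_int
    exact isJacobsonRing_of_finiteType (A := ℤ)
  have hjac : M0.jacobson = M0 := isJacobsonRing_iff_prime_eq.mp hJ M0 hM0
  rw [← hjac, Ideal.jacobson, Submodule.mem_sInf] at hprod
  push Not at hprod
  obtain ⟨MM, ⟨hM0M, hMM⟩, hMa⟩ := hprod
  refine ⟨MM, hMM, hM0M hpM0, fun h1 => hMa (Ideal.mul_mem_right _ MM h1), fun c h3 => ?_⟩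
  exact hMa (Ideal.mul_mem_left MM _ (Ideal.mem_of_dvd MM
    (Finset.dvd_prod_of_mem (fun c => D c p) (Finset.mem_univ c)) h3))

theorem main {k ι : Type} [Field k] [CharZero k] [FinTrdeg ℚ k] [Fintype ι]
    {σ Γ : ι → Type} [∀ c, Fintype (σ c)] [∀ c, AddCommGroup (Γ c)]
    (w : ∀ c, σ c → Γ c) (γ χ : ∀ c, Γ c) (S r n : ι → ℕ) (hrn : ∀ c, r c ≤ n c)
    (f : ∀ c, MvPolynomial (σ c) k) (v : ∀ c, Fin (r c) → σ c →₀ ℕ)
    (e : ∀ c, Fin (n c) → MvPolynomial (σ c) k)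
    (hsys : ∀ c, IsSystem (w c) (γ c) (χ c) (S c) (hrn c) (f c) (v c) (e c))
    (t : ι → ℕ) (htor : ∀ c (y : Γ c) (m : ℕ), m ≠ 0 → m • y = 0 → t c • y = 0)
    (hχ : ∀ c, t c • χ c = 0)
    (hbig : ∀ c, 0 < r c → r c < n c →
      ∃ (δ : Derivation ℤ k k) (M : Matrix (Fin (n c)) (Fin (n c)) k),
        IsGM δ (S c) (f c) (e c) M ∧ (Big3 δ M (r c) ∨ GP δ M (r c)))
    (A : Subalgebra ℤ k) (hA : A.FG) (F : ∀ c, MvPolynomial (σ c) A)
    (hF : ∀ c, map (algebraMap A k) (F c) = f c) (g : A) (hg : g ≠ 0) :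
    ∃ N : ℕ, ∀ p : ℕ, N ≤ p → p.Prime → (∀ c, t c ∣ p - 1) → ∃ M : Ideal A, M.IsMaximal ∧
      (p : A) ∈ M ∧ g ∉ M ∧
        ∀ c, (hwm p (v c) (map (Ideal.Quotient.mk M) (F c))).det ≠ 0 := by
  classical
  -- the data
  have hdata : ∀ c, ∃ (δ : Derivation ℤ k k) (M : Matrix (Fin (n c)) (Fin (n c)) k),
      0 < r c → r c < n c → IsGM δ (S c) (f c) (e c) M ∧ GP δ M (r c) := by
    intro c
    by_cases h : 0 < r c ∧ r c < n c
    · obtain ⟨δ, M, h1, h2⟩ := hbig c h.1 h.2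
      refine ⟨δ, M, fun _ _ => ⟨h1, ?_⟩⟩
      rcases h2 with h2 | h2
      · exact big3_gp δ M _ (hrn c) h2
      · exact h2
    · exact ⟨0, 0, fun h1 h2 => absurd ⟨h1, h2⟩ h⟩
  choose δ M hM using hdata
  have hY1 := fun c => lift_sys (hsys c)
  choose Y1 hY1fin hY1 using hY1
  have hY2 : ∀ c, ∃ Y : Set k, Y.Finite ∧ (0 < r c → r c < n c → ∀ B : Subalgebra ℤ k, Y ⊆ B →
      ∀ d : B → B, (∀ y : B, ((d y : B) : k) = δ c y) →
      ∀ (fB : MvPolynomial (σ c) B) (eB : Fin (n c) → MvPolynomial (σ c) B),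
        map (algebraMap B k) fB = f c → (∀ i, map (algebraMap B k) (eB i) = e c i) →
        ∃ MB : Matrix (Fin (n c)) (Fin (n c)) B,
          MB.map (algebraMap B k) = M c ∧ IsGM d (S c) fB eB MB) := by
    intro c
    by_cases h : 0 < r c ∧ r c < n c
    · obtain ⟨Y, h1, h2⟩ := lift_gm (δ := δ c) (map_zero (δ c)) (hM c h.1 h.2).1
      exact ⟨Y, h1, fun _ _ => h2⟩
    · exact ⟨∅, Set.finite_empty, fun h1 h2 => absurd ⟨h1, h2⟩ h⟩
  choose Y2 hY2fin hY2 using hY2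
  obtain ⟨T, hT⟩ := hA
  obtain ⟨B, hYB, hδB, N0, Q, hQ, hQfin⟩ := exists_ring δ ((T : Set k) ∪ (⋃ c, Y1 c) ∪ ⋃ c, Y2 c)
    ((T.finite_toSet.union (Set.finite_iUnion hY1fin)).union (Set.finite_iUnion hY2fin))
  have hAB : A ≤ B := by
    rw [← hT]
    exact Algebra.adjoin_le fun y hy => hYB (Or.inl (Or.inl hy))
  have hB1 : ∀ c, Y1 c ⊆ B := fun c x hx => hYB (Or.inl (Or.inr (Set.mem_iUnion.2 ⟨c, hx⟩)))
  have hB2 : ∀ c, Y2 c ⊆ B := fun c x hx => hYB (Or.inr (Set.mem_iUnion.2 ⟨c, hx⟩))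
  let d : ι → B →+ B := fun c =>
    { toFun := fun y => ⟨δ c y, hδB c y y.2⟩
      map_zero' := Subtype.ext (map_zero (δ c))
      map_add' := fun x y => Subtype.ext (map_add (δ c) _ _) }
  have hd : ∀ c (y : B), ((d c y : B) : k) = δ c y := fun c y => rfl
  have hlift := fun c => hY1 c B (hB1 c)
  choose fB eB hfB heB hfield using hlift
  let iA : A →+* B := (Subalgebra.inclusion hAB).toRingHom
  have hFB : ∀ c, map iA (F c) = fB c := by
    intro c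
    apply map_injective (algebraMap B k) Subtype.val_injective
    rw [map_map, hfB, ← hF]
    rfl
  have hsing : ∀ c, {p : ℕ | p.Prime ∧ N0 ≤ p ∧ t c ∣ p - 1 ∧
      iA (hwm p (v c) (F c)).det ∈ Q p}.Finite := by
    intro c
    simp_rw [map_hwm, hFB]
    refine single (hrn c) (t c) (htor c) (hχ c) (hsys c).one_le (hsys c).inj (hsys c).mem B N0 Q
      (fun p h1 h2 => ⟨(hQ p h1 h2).1, (hQ p h1 h2).2.1⟩) hQfin (fB c) (eB c) (hfield c) ?_
    intro h1 h2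
    obtain ⟨MB, h3, h4⟩ := hY2 c h1 h2 B (hB2 c) (d c) (hd c) (fB c) (eB c) (hfB c) (heB c)
    refine ⟨δ c, d c, hd c, fun p hp0 hp => (hQ p hp0 hp).2.2 c (d c) (hd c), MB, h4, ?_⟩
    rw [h3]
    exact (hM c h1 h2).2
  obtain ⟨N, hN⟩ := closing A B hAB ⟨T, hT⟩ N0 Q
    (fun p h1 h2 => ⟨(hQ p h1 h2).1, (hQ p h1 h2).2.1⟩) hQfin (fun c p => t c ∣ p - 1)
    (fun c p => (hwm p (v c) (F c)).det) hsing g hg
  refine ⟨N, fun p hp hpp hdvd => ?_⟩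
  obtain ⟨MM, h1, h2, h3, h4⟩ := hN p hp hpp hdvd
  refine ⟨MM, h1, h2, h3, fun c hc => h4 c ?_⟩
  rw [← map_hwm] at hc
  exact Ideal.Quotient.eq_zero_iff_mem.1 hc

end Pool.Agent.V8H79.HY
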