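import Pool.Agent.V8H79.HY.PD

/-!
# Hypersurfaces with systems of forms
-/

set_option autoImplicit false

open MvPolynomial

namespace Pool.Agent.V8H79.HY

open Pool.Agent.V8H79.BM (GP)

/-- a hypersurface `f = 0` of degree `γ` for the weights `w`, a character `χ`, an exponent `t` of the
torsion of the group of weights, forms `e i Ω / f ^ S`, and exponents `v b` -/
structure Hyp (k : Type) [Field k] where
  /-- the variables -/
  σ : Type
  /-- the group of the weights -/
  Γ : Type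
  /-- finitely many variables -/
  fin : Fintype σ
  /-- the group of the weights -/
  grp : AddCommGroup Γ
  /-- the weights -/
  w : σ → Γ
  /-- the degree -/
  γ : Γ
  /-- the character -/
  χ : Γ
  /-- exponent of the torsion of `Γ` -/
  t : ℕ
  /-- order of the poles -/
  S : ℕ
  /-- number of the forms with poles of order one -/
  r : ℕ
  /-- number of the forms -/
  n : ℕ
  /-- `r ≤ n` -/
  hrn : r ≤ n
  /-- the equation -/
  f : MvPolynomial σ k
  /-- the exponents -/
  v : Fin r → σ →₀ ℕ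
  /-- the forms -/
  e : Fin n → MvPolynomial σ k

attribute [instance] Hyp.fin Hyp.grp

variable {k : Type} [Field k] (X : Hyp k)

/-- the forms with poles of order `≥ S + 1` can be reduced, and there are finitely many
monomial forms with poles of order `S` -/
def Hyp.PoleOrder : Prop :=
  1 ≤ X.S ∧ (∀ s, X.S ≤ s → ∀ P, IsForm X.w X.γ X.χ (s + 1) P → P ∈ jac X.f) ∧
    {u : X.σ →₀ ℕ | Finsupp.weight X.w u = X.S • X.γ + X.χ - ∑ l, X.w l}.Finite

/-- the `v b` are distinct, and are all exponents of weight `γ + χ` without zeros -/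
def Hyp.Exponents : Prop :=
  Function.Injective X.v ∧
    ∀ u, (∃ b, X.v b = u) ↔ (∀ l, 1 ≤ u l) ∧ Finsupp.weight X.w u = X.γ + X.χ

/-- `e b = f ^ (S - 1) x ^ (v b - 1)` for `b < r`, so `e b Ω / f ^ S = x ^ (v b - 1) Ω / f` -/
def Hyp.First : Prop :=
  ∀ b : Fin X.r, (∏ l, MvPolynomial.X l) * X.e (Fin.castLE X.hrn b) =
    monomial (X.v b) 1 * X.f ^ (X.S - 1)

/-- all forms `P Ω / f ^ S` in the eigenspace `χ` are linear combinations of the `e i Ω / f ^ S` and of
exact forms -/
def Hyp.Spans : Prop :=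
  ∀ P, IsForm X.w X.γ X.χ X.S P → ∃ (a : Fin X.n → k) (Q : X.σ → MvPolynomial X.σ k),
    P = ∑ i, C (a i) * X.e i + ext (X.S - 1) X.f Q

/-- `t` kills the torsion of `Γ` and the character -/
def Hyp.Torsion : Prop :=
  (∀ (y : X.Γ) (m : ℕ), m ≠ 0 → m • y = 0 → X.t • y = 0) ∧ X.t • X.χ = 0

/-- a (quasi-smooth) hypersurface with a character and a system of forms with poles of order `S` which
spans the eigenspace of the cohomology of the complement -/
def Hyp.IsSystem : Prop :=
  IsWeightedHomogeneous X.w X.f X.γ ∧ X.PoleOrder ∧ X.Exponents ∧ X.First ∧ X.Spans ∧ X.Torsion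

/-- if `0 < r < n` then for some derivation of `k` the Gauss–Manin module has a big differential Galois
group or is in general position -/
def Hyp.IsBig : Prop :=
  0 < X.r → X.r < X.n → ∃ (δ : Derivation ℤ k k) (M : Matrix (Fin X.n) (Fin X.n) k),
    IsGM δ X.S X.f X.e M ∧ (Big3 δ M X.r ∨ GP δ M X.r)

theorem main' {k ι : Type} [Field k] [CharZero k] [FinTrdeg ℚ k] [Fintype ι] (X : ι → Hyp k)
    (hX : ∀ c, (X c).IsSystem) (hbig : ∀ c, (X c).IsBig)
    (A : Subalgebra ℤ k) (hA : A.FG) (F : ∀ c, MvPolynomial (X c).σ A)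
    (hF : ∀ c, map (algebraMap A k) (F c) = (X c).f) (g : A) (hg : g ≠ 0) :
    ∃ N : ℕ, ∀ p : ℕ, N ≤ p → p.Prime → (∀ c, (X c).t ∣ p - 1) → ∃ M : Ideal A, M.IsMaximal ∧
      (p : A) ∈ M ∧ g ∉ M ∧
        ∀ c, (hwm p (X c).v (map (Ideal.Quotient.mk M) (F c))).det ≠ 0 :=
  main (fun c => (X c).w) (fun c => (X c).γ) (fun c => (X c).χ) (fun c => (X c).S)
    (fun c => (X c).r) (fun c => (X c).n) (fun c => (X c).hrn) (fun c => (X c).f)
    (fun c => (X c).v) (fun c => (X c).e)
    (fun c => ⟨(hX c).1, (hX c).2.1.2.1, (hX c).2.1.1, (hX c).2.1.2.2,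
      (hX c).2.2.1.1, (hX c).2.2.1.2, (hX c).2.2.2.1, (hX c).2.2.2.2.1⟩)
    (fun c => (X c).t) (fun c => (hX c).2.2.2.2.2.1) (fun c => (hX c).2.2.2.2.2.2)
    hbig A hA F hF g hg

end Pool.Agent.V8H79.HY
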